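import Mathlib

/-! A linear map on bivectors of `ℤ^8` with values in `ℤ^7` that kills no decomposable bivector. -/

set_option autoImplicit false

open Matrix

namespace Pool.Agent.P.MP_fea266_nt

theorem det4 {R : Type} [CommRing R] (a b c d e f g h i j k l m n o p : R) :
    det !![a, b, c, d; e, f, g, h; i, j, k, l; m, n, o, p] =
      a * (f * k * p - f * l * o - g * j * p + g * l * n + h * j * o - h * k * n) -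
      b * (e * k * p - e * l * o - g * i * p + g * l * m + h * i * o - h * k * m) +
      c * (e * j * p - e * l * n - f * i * p + f * l * m + h * i * n - h * j * m) -
      d * (e * j * o - e * k * n - f * i * o + f * k * m + g * i * n - g * j * m) := by
  rw [det_succ_row_zero]
  simp [Fin.sum_univ_four, det_fin_three, Fin.succAbove]
  ring

/-- the reduced norm on the net -/
def dl {R : Type} [CommRing R] (s t w : R) : R :=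
  (t ^ 2 - 3 * s ^ 2 - 3 * w ^ 2) * ((s + t) ^ 2 - 3 * w ^ 2 - 3 * t ^ 2) + w ^ 4 -
    2 * w ^ 2 * (-t * (s + t) + 3 * s * w - 3 * w * t)

theorem even_of (x : ℤ) (h : 4 * (x : ZMod 8) = 0) : ∃ y, x = 2 * y := by
  have : (8 : ℤ) ∣ 4 * x := (ZMod.intCast_zmod_eq_zero_iff_dvd _ 8).1 (by exact_mod_cast h)
  exact ⟨x / 2, by omega⟩

theorem descent {P : ℤ → ℤ → ℤ → ℤ → Prop} (h : ∀ s t w q, P s t w q →
    ∃ s' t' w' q', s = 2 * s' ∧ t = 2 * t' ∧ w = 2 * w' ∧ P s' t' w' q') (s t w q : ℤ)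
    (h0 : P s t w q) : s = 0 ∧ t = 0 ∧ w = 0 := by
  induction hn : s.natAbs + t.natAbs + w.natAbs using Nat.strong_induction_on
    generalizing s t w q with
  | _ n ih =>
    obtain ⟨s', t', w', q', rfl, rfl, rfl, h1⟩ := h s t w q h0
    by_cases e : n = 0
    · omega
    · have := ih _ (by omega) s' t' w' q' h1 rfl
      omega

theorem dl_sq (s t w q : ℤ) (h : dl s t w = q ^ 2) : s = 0 ∧ t = 0 ∧ w = 0 := by
  refine descent (P := fun s t w q => dl s t w = q ^ 2) (fun s t w q h => ?_) s t w q h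
  have key : ∀ s t w q : ZMod 8, dl s t w = q ^ 2 → 4 * s = 0 ∧ 4 * t = 0 ∧ 4 * w = 0 := by
    decide +kernel
  obtain ⟨h1, h2, h3⟩ := key s t w q (by unfold dl at h ⊢; exact_mod_cast congrArg (Int.cast : ℤ → ZMod 8) h)
  obtain ⟨s, rfl⟩ := even_of s h1
  obtain ⟨t, rfl⟩ := even_of t h2
  obtain ⟨w, rfl⟩ := even_of w h3
  obtain ⟨q, rfl⟩ : (4 : ℤ) ∣ q := (Int.pow_dvd_pow_iff two_ne_zero).1
    ⟨dl s t w, by rw [← h, dl, dl]; ring⟩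
  exact ⟨s, t, w, q, rfl, rfl, rfl, by unfold dl at h ⊢; linarith⟩

theorem nrm_zero (a b c d : ℤ) (h : a ^ 2 + b ^ 2 - 3 * c ^ 2 - 3 * d ^ 2 = 0) :
    a = 0 ∧ b = 0 ∧ c = 0 ∧ d = 0 := by
  obtain ⟨rfl, rfl, rfl⟩ := descent
    (P := fun a b c d => a ^ 2 + b ^ 2 - 3 * c ^ 2 - 3 * d ^ 2 = 0) (fun s t w q h => by
      have key : ∀ a b c d : ZMod 8, a ^ 2 + b ^ 2 - 3 * c ^ 2 - 3 * d ^ 2 = 0 →
        4 * a = 0 ∧ 4 * b = 0 ∧ 4 * c = 0 ∧ 4 * d = 0 := by decide +kernel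
      obtain ⟨h1, h2, h3, h4⟩ := key s t w q (by exact_mod_cast congrArg (Int.cast : ℤ → ZMod 8) h)
      obtain ⟨s, rfl⟩ := even_of s h1
      obtain ⟨t, rfl⟩ := even_of t h2
      obtain ⟨w, rfl⟩ := even_of w h3
      obtain ⟨q, rfl⟩ := even_of q h4
      exact ⟨s, t, w, q, rfl, rfl, rfl, by linarith⟩) a b c d h
  exact ⟨rfl, rfl, rfl, by nlinarith⟩

theorem net_zero (x0 x1 x2 x3 y0 y1 y2 y3 z0 z1 z2 z3 v0 v1 v2 v3 s t w : ℤ)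
    (h0 : -2 * (x0 * y1 - x1 * y0) + 6 * (x2 * y3 - x3 * y2) = -t)
    (h1 : -2 * (x0 * y2 - x2 * y0) + 2 * (x1 * y3 - x3 * y1) = s)
    (h2 : -2 * (x0 * y3 - x3 * y0) - 2 * (x1 * y2 - x2 * y1) = w)
    (h3 : -2 * (z0 * v1 - z1 * v0) + 6 * (z2 * v3 - z3 * v2) = s + t)
    (h4 : -2 * (z0 * v2 - z2 * v0) + 2 * (z1 * v3 - z3 * v1) = -w)
    (h5 : -2 * (z0 * v3 - z3 * v0) - 2 * (z1 * v2 - z2 * v1) = t)
    (h6 : x0 * v0 - z0 * y0 + (x1 * v1 - z1 * y1) - 3 * (x2 * v2 - z2 * y2) -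
      3 * (x3 * v3 - z3 * y3) = w)
    (h7 : -(x0 * v1 - z1 * y0) + (x1 * v0 - z0 * y1) + 3 * (x2 * v3 - z3 * y2) -
      3 * (x3 * v2 - z2 * y3) = 0)
    (h8 : -(x0 * v2 - z2 * y0) + (x1 * v3 - z3 * y1) + (x2 * v0 - z0 * y2) -
      (x3 * v1 - z1 * y3) = 0)
    (h9 : -(x0 * v3 - z3 * y0) - (x1 * v2 - z2 * y1) + (x2 * v1 - z1 * y2) +
      (x3 * v0 - z0 * y3) = 0) : s = 0 ∧ t = 0 ∧ w = 0 := by
  let P : Matrix (Fin 4) (Fin 4) (ℤ√3) := !![⟨x0, x2⟩, ⟨x1, -x3⟩, ⟨y0, y2⟩, ⟨y1, -y3⟩;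
    ⟨-x1, -x3⟩, ⟨x0, -x2⟩, ⟨-y1, -y3⟩, ⟨y0, -y2⟩; ⟨z0, z2⟩, ⟨z1, -z3⟩, ⟨v0, v2⟩, ⟨v1, -v3⟩;
    ⟨-z1, -z3⟩, ⟨z0, -z2⟩, ⟨-v1, -v3⟩, ⟨v0, -v2⟩]
  let K : Matrix (Fin 4) (Fin 4) (ℤ√3) := !![0, 0, 0, 1; 0, 0, -1, 0; 0, -1, 0, 0; 1, 0, 0, 0]
  have e1 : P * K * Pᵀ = !![⟨t, w⟩, ⟨0, s⟩, ⟨0, 0⟩, ⟨w, 0⟩; ⟨0, s⟩, ⟨t, -w⟩, ⟨-w, 0⟩, ⟨0, 0⟩;
      ⟨0, 0⟩, ⟨-w, 0⟩, ⟨-(s + t), t⟩, ⟨0, -w⟩; ⟨w, 0⟩, ⟨0, 0⟩, ⟨0, -w⟩, ⟨-(s + t), -t⟩] := by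
    ext i j <;> fin_cases i <;> fin_cases j <;>
      simp [P, K, mul_apply, Fin.sum_univ_four] <;> linarith
  have e2 : K.det = 1 := by rw [det4]; ring
  have e3 : P.det.im = 0 := by
    rw [det4]
    simp
    ring
  have e4 := congrArg (fun M => (det M).re) e1
  simp only [det_mul, det_transpose, e2, mul_one, Zsqrtd.re_mul, e3, mul_zero, add_zero, det4] at e4
  refine dl_sq s t w P.det.re ?_
  rw [sq, e4, dl]
  simp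
  ring

theorem half (x0 x1 x2 x3 y0 y1 y2 y3 z0 z1 z2 z3 v0 v1 v2 v3 n l : ℤ)
    (hn : n = x0 ^ 2 + x1 ^ 2 - 3 * x2 ^ 2 - 3 * x3 ^ 2) (hn0 : n ≠ 0)
    (hl : l = x0 * y0 + x1 * y1 - 3 * x2 * y2 - 3 * x3 * y3)
    (h0 : -(x0 * y1 - x1 * y0) + 3 * (x2 * y3 - x3 * y2) = 0)
    (h1 : -(x0 * y2 - x2 * y0) + (x1 * y3 - x3 * y1) = 0)
    (h2 : -(x0 * y3 - x3 * y0) - (x1 * y2 - x2 * y1) = 0)
    (h6 : x0 * v0 - z0 * y0 + (x1 * v1 - z1 * y1) - 3 * (x2 * v2 - z2 * y2) -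
      3 * (x3 * v3 - z3 * y3) = 0)
    (h7 : -(x0 * v1 - z1 * y0) + (x1 * v0 - z0 * y1) + 3 * (x2 * v3 - z3 * y2) -
      3 * (x3 * v2 - z2 * y3) = 0)
    (h8 : -(x0 * v2 - z2 * y0) + (x1 * v3 - z3 * y1) + (x2 * v0 - z0 * y2) -
      (x3 * v1 - z1 * y3) = 0)
    (h9 : -(x0 * v3 - z3 * y0) - (x1 * v2 - z2 * y1) + (x2 * v1 - z1 * y2) +
      (x3 * v0 - z0 * y3) = 0) :
    n * y0 = l * x0 ∧ n * y1 = l * x1 ∧ n * y2 = l * x2 ∧ n * y3 = l * x3 ∧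
      n * v0 = l * z0 ∧ n * v1 = l * z1 ∧ n * v2 = l * z2 ∧ n * v3 = l * z3 := by
  have g0 : n * y0 = l * x0 := by
    rw [hn, hl]; linear_combination x1 * h0 - 3 * x2 * h1 - 3 * x3 * h2
  have g1 : n * y1 = l * x1 := by
    rw [hn, hl]; linear_combination -x0 * h0 + 3 * x3 * h1 - 3 * x2 * h2
  have g2 : n * y2 = l * x2 := by
    rw [hn, hl]; linear_combination x3 * h0 - x0 * h1 - x1 * h2
  have g3 : n * y3 = l * x3 := by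
    rw [hn, hl]; linear_combination -x2 * h0 + x1 * h1 - x0 * h2
  refine ⟨g0, g1, g2, g3, mul_left_cancel₀ hn0 ?_, mul_left_cancel₀ hn0 ?_,
    mul_left_cancel₀ hn0 ?_, mul_left_cancel₀ hn0 ?_⟩
  · linear_combination n * x0 * h6 + n * x1 * h7 - 3 * n * x2 * h8 - 3 * n * x3 * h9 +
      (x0 * z0 - x1 * z1 + 3 * x2 * z2 + 3 * x3 * z3) * g0 +
      (x0 * z1 + x1 * z0 - 3 * x2 * z3 + 3 * x3 * z2) * g1 +
      (-3 * x0 * z2 + 3 * x1 * z3 - 3 * x2 * z0 - 3 * x3 * z1) * g2 +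
      (-3 * x0 * z3 - 3 * x1 * z2 + 3 * x2 * z1 - 3 * x3 * z0) * g3 +
      (n * v0 - l * z0) * hn
  · linear_combination n * x1 * h6 - n * x0 * h7 + 3 * n * x3 * h8 - 3 * n * x2 * h9 +
      (x0 * z1 + x1 * z0 + 3 * x2 * z3 - 3 * x3 * z2) * g0 +
      (-x0 * z0 + x1 * z1 + 3 * x2 * z2 + 3 * x3 * z3) * g1 +
      (-3 * x0 * z3 - 3 * x1 * z2 - 3 * x2 * z1 + 3 * x3 * z0) * g2 +
      (3 * x0 * z2 - 3 * x1 * z3 - 3 * x2 * z0 - 3 * x3 * z1) * g3 +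
      (n * v1 - l * z1) * hn
  · linear_combination n * x2 * h6 + n * x3 * h7 - n * x0 * h8 - n * x1 * h9 +
      (x0 * z2 + x1 * z3 + x2 * z0 - x3 * z1) * g0 +
      (-x0 * z3 + x1 * z2 + x2 * z1 + x3 * z0) * g1 +
      (-x0 * z0 - x1 * z1 - 3 * x2 * z2 + 3 * x3 * z3) * g2 +
      (x0 * z1 - x1 * z0 - 3 * x2 * z3 - 3 * x3 * z2) * g3 +
      (n * v2 - l * z2) * hn
  · linear_combination n * x3 * h6 - n * x2 * h7 + n * x1 * h8 - n * x0 * h9 +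
      (x0 * z3 - x1 * z2 + x2 * z1 + x3 * z0) * g0 +
      (x0 * z2 + x1 * z3 - x2 * z0 + x3 * z1) * g1 +
      (-x0 * z1 + x1 * z0 - 3 * x2 * z3 - 3 * x3 * z2) * g2 +
      (-x0 * z0 - x1 * z1 + 3 * x2 * z2 - 3 * x3 * z3) * g3 +
      (n * v3 - l * z3) * hn

/-- Plücker coordinates -/
def pl (u v : Fin 8 → ℤ) (i j : Fin 8) : ℤ := u i * v j - u j * v i

/-- the seven linear forms -/
def ww (P : Fin 8 → Fin 8 → ℤ) : Fin 7 → ℤ :=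
  ![-2 * P 0 1 + 6 * P 2 3 - 2 * P 4 7 - 2 * P 5 6,
    -2 * P 0 3 - P 0 4 - 2 * P 1 2 - P 1 5 + 3 * P 2 6 + 3 * P 3 7,
    2 * P 0 2 - 2 * P 1 3 - 2 * P 4 5 + 2 * P 4 7 + 2 * P 5 6 + 6 * P 6 7,
    P 0 4 + P 1 5 - 3 * P 2 6 - 3 * P 3 7 - 2 * P 4 6 + 2 * P 5 7,
    -P 0 5 + P 1 4 + 3 * P 2 7 - 3 * P 3 6, -P 0 6 + P 1 7 + P 2 4 - P 3 5,
    -P 0 7 - P 1 6 + P 2 5 + P 3 4]

theorem pl_zero {u v : Fin 8 → ℤ} {n l : ℤ} (hn : n ≠ 0) (h : ∀ i, n * v i = l * u i) :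
    pl u v = 0 := by
  funext i j
  refine mul_left_cancel₀ hn ?_
  simp only [pl, Pi.zero_apply]
  linear_combination u i * h j - u j * h i

theorem ww_zero (u v : Fin 8 → ℤ) (h : ww (pl u v) = 0) : pl u v = 0 := by
  simp only [ww, pl, cons_eq_zero_iff] at h
  obtain ⟨h0, h1, h2, h3, h4, h5, h6, -⟩ := h
  obtain ⟨e1, e2, e3⟩ := net_zero (u 0) (u 1) (u 2) (u 3) (v 0) (v 1) (v 2) (v 3) (u 4) (u 5) (u 6)
    (u 7) (v 4) (v 5) (v 6) (v 7) _ _ _ (by linarith) rfl (by linarith) (by linarith) (by linarith)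
    rfl rfl h4 h5 h6
  by_cases c1 : u 0 ^ 2 + u 1 ^ 2 - 3 * u 2 ^ 2 - 3 * u 3 ^ 2 = 0
  · by_cases c2 : u 4 ^ 2 + u 5 ^ 2 - 3 * u 6 ^ 2 - 3 * u 7 ^ 2 = 0
    · have f1 := nrm_zero _ _ _ _ c1
      have f2 := nrm_zero _ _ _ _ c2
      have : u = 0 := funext fun i => by fin_cases i <;> simp [f1, f2]
      funext i j
      simp [pl, this]
    · obtain ⟨f0, f1, f2, f3, f4, f5, f6, f7⟩ := half (u 4) (u 5) (u 6) (u 7) (v 4) (v 5) (v 6)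
        (v 7) (u 0) (u 1) (u 2) (u 3) (v 0) (v 1) (v 2) (v 3) _ _ rfl c2 rfl (by linarith)
        (by linarith) (by linarith) (by linarith) (by linarith) (by linarith) (by linarith)
      exact pl_zero c2 fun i => by fin_cases i; exacts [f4, f5, f6, f7, f0, f1, f2, f3]
  · obtain ⟨f0, f1, f2, f3, f4, f5, f6, f7⟩ := half (u 0) (u 1) (u 2) (u 3) (v 0) (v 1) (v 2)
      (v 3) (u 4) (u 5) (u 6) (u 7) (v 4) (v 5) (v 6) (v 7) _ _ rfl c1 rfl (by linarith)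
      (by linarith) (by linarith) e3 h4 h5 h6
    exact pl_zero c1 fun i => by fin_cases i; exacts [f0, f1, f2, f3, f4, f5, f6, f7]

end Pool.Agent.P.MP_fea266_nt
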