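import Pool.Agent.P.MP_fea266_nt.Pack
import Pool.Agent.P.MP_fc15d7_nt.TAUX
import Pool.Agent.P.MP_fc15d7_nt.TCNT

/-! The auxiliary polynomial and the vanishing estimate for real algebraic forms. -/

set_option autoImplicit false

open Matrix MvPolynomial

namespace Pool.Agent.P.MP_fea266_nt

open Pool.Agent.P.MP_fc15d7_nt

theorem row_bound {ι R : Type} [Fintype ι] [CommRing R] {ν : R → ℝ} (hν : SN ν)
    (B : Matrix ι ι R) : ∃ K : ℝ, 1 ≤ K ∧ ∀ i, ∑ j, ν (B i j) ≤ K :=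
  ⟨1 + ∑ i, ∑ j, ν (B i j), le_add_of_nonneg_right
    (Finset.sum_nonneg fun _ _ => Finset.sum_nonneg fun _ _ => hν.nn _), fun i => by
    linarith [Finset.single_le_sum (f := fun i => ∑ j, ν (B i j))
      (fun i _ => Finset.sum_nonneg fun j _ => hν.nn _) (Finset.mem_univ i)]⟩

theorem aux {ι : Type} [Fintype ι] [DecidableEq ι] [Nonempty ι] {B : Matrix ι ι ℝ} (hB : Alg B)
    (c : ι → ℝ) {η : ℝ} (hη : 0 < η) :
    ∃ (m0 : ℕ) (K : ℝ), 1 ≤ K ∧ ∀ m : ℕ, m0 ≤ m → ∀ (N : Fin m → ℝ) (d : Fin m → ℕ) (Z : ℝ),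
      0 < Z → (∀ h, 0 ≤ N h) → (∀ h, N h * d h ≤ Z) → 1 ≤ ∑ h, d h →
      ∃ P : MvPolynomial (Fin m × ι) ℤ, P ≠ 0 ∧ MH d P ∧ wn 1 P ≤ K ^ ∑ h, d h ∧
        wr (fun x : ℝ => |x|) 1 (lr (fun _ => B) (map (Int.castRingHom ℝ) P)) ≤ K ^ ∑ h, d h ∧
          ∀ J ∈ (lr (fun _ => B) (map (Int.castRingHom ℝ) P)).support,
            ∑ h, ∑ i, N h * c i * J (h, i) ≤
              (∑ i, c i) / Fintype.card ι * ∑ h, N h * d h + η * m * Z := by
  classical
  obtain ⟨S, s, co, ν, C0, h1, hν, hC, hco, hle, -⟩ :=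
    pack (fun x : ι × ι => B x.1 x.2) fun x => hB _ _
  let B' : Matrix ι ι S := Matrix.of fun i j => ⟨B i j, h1 (i, j)⟩
  have hδ : (0 : ℝ) < 1 / (2 * (s + 1)) := by positivity
  obtain ⟨m0, hm0⟩ := t_CNT ι c η _ hη hδ
  obtain ⟨K0, hK1, hK0⟩ := row_bound hν B'
  obtain ⟨K3, hK4, hK3⟩ := row_bound sn_abs B
  have hD : (1 : ℝ) ≤ Fintype.card ι := by exact_mod_cast Fintype.card_pos
  refine ⟨m0, Fintype.card ι * (Fintype.card ι * (C0 * K0)) * K3, ?_,
    fun m hm N d Z hZ hN hd hd1 => ?_⟩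
  · exact one_le_mul_of_one_le_of_one_le (one_le_mul_of_one_le_of_one_le hD
      (one_le_mul_of_one_le_of_one_le hD (one_le_mul_of_one_le_of_one_le hC hK1))) hK4
  obtain ⟨Mon, hMon⟩ : ∃ Mon : Finset (Fin m → ι → ℕ),
      Mon = Fintype.piFinset fun h => Finset.piAntidiag Finset.univ (d h) := ⟨_, rfl⟩
  have hmem : ∀ I, I ∈ Mon ↔ ∀ h, ∑ i, I h i = d h := fun I => by simp [hMon]
  obtain ⟨T, hT⟩ : ∃ T : Finset (Fin m → ι → ℕ), T = Mon.filter fun J =>
      (∑ i, c i) / Fintype.card ι * ∑ h, N h * d h + η * m * Z <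
        ∑ h, ∑ i, N h * c i * J h i := ⟨_, rfl⟩
  have hTc : (T.card : ℝ) ≤ 1 / (2 * (s + 1)) * Mon.card := by
    rw [hMon]
    refine hm0 m hm N d Z hZ hN hd T ?_ ?_
    · rw [hT, ← hMon]; exact Finset.filter_subset _ _
    · intro J hJ
      rw [hT] at hJ
      exact (Finset.mem_filter.1 hJ).2
  have hcard : (Mon.card : ℝ) ≤ (Fintype.card ι : ℝ) ^ ∑ h, d h := by
    rw [hMon, Fintype.card_piFinset, ← Finset.prod_pow_eq_pow_sum]
    exact_mod_cast Finset.prod_le_prod' fun h _ => aux_card (d h)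
  have hMH : ∀ (R : Type) [CommRing R] (I : Mon) (a : R), MR d (monomial (auxMon I.1) a) :=
    fun R _ I a J hJ h => by
    rw [Finset.mem_singleton.1 (support_monomial_subset hJ)]
    exact (hmem _).1 I.2 h
  have hw : ∀ (I : Fin m → ι → ℕ) (a : ℤ), wn 1 (monomial (auxMon I) a) = |(a : ℝ)| :=
    fun I a => by rw [wn_monomial]; simp [Finsupp.prod]
  have hKS : 1 ≤ (C0 * K0) ^ ∑ h, d h := one_le_pow₀ (one_le_mul_of_one_le_of_one_le hC hK1)
  obtain ⟨t, ht, hAt, htn⟩ := aux_siegel (α := T × Fin s) (β := Mon)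
    (Matrix.of fun e I => co e.2
      ((lr (fun _ => B') (monomial (auxMon I.1) 1)).coeff (auxMon e.1.1)))
    hKS (fun e I => by
      have h2 := coeff_le_wr hν (β := 1) (fun _ => zero_le_one)
        (lr (fun _ => B') (monomial (auxMon I.1) 1)) (auxMon e.1.1)
      have h3 := wr_lr_const hν (hMH S I 1) B' hK0
      rw [wr_monomial hν] at h3
      simp only [Pi.one_apply, one_pow, Finsupp.prod, Finset.prod_const_one, mul_one] at h2 h3
      refine (hle _ _).trans ?_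
      rw [mul_pow]
      refine mul_le_mul (le_self_pow₀ hC (by omega)) ((h2.trans h3).trans
        (mul_le_of_le_one_left (by positivity) hν.one)) (hν.nn _) (by positivity))
    (by
      rw [Fintype.card_prod, Fintype.card_coe, Fintype.card_coe, Fintype.card_fin]
      have h2 : (T.card : ℝ) * s ≤ 1 / (2 * (s + 1)) * Mon.card * (s + 1) := by
        gcongr; linarith
      have h3 : 1 / (2 * ((s : ℝ) + 1)) * Mon.card * (s + 1) = Mon.card / 2 := by field_simp
      have h4 : 2 * ((T.card : ℝ) * s) ≤ Mon.card := by linarith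
      exact_mod_cast h4)
    (by
      obtain ⟨i0⟩ := ‹Nonempty ι›
      exact Fintype.card_pos_iff.2 ⟨⟨fun h => Pi.single i0 (d h), (hmem _).2 fun h => by simp⟩⟩)
  rw [Fintype.card_coe] at htn
  have hP : MH d (∑ I : Mon, monomial (auxMon I.1) (t I)) := fun J hJ => by
    obtain ⟨I, -, hI⟩ := Finset.mem_biUnion.1 (support_sum hJ)
    exact hMH ℤ I _ J hI
  have hPw : wn 1 (∑ I : Mon, monomial (auxMon I.1) (t I)) ≤
      (Fintype.card ι * (Fintype.card ι * (C0 * K0))) ^ ∑ h, d h := by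
    refine (wn_sum_le (fun _ => zero_le_one) _ _).trans ?_
    refine (Finset.sum_le_card_nsmul _ _ _ fun I _ => (hw _ _).trans_le (htn I)).trans ?_
    rw [Finset.card_univ, Fintype.card_coe, nsmul_eq_mul, mul_pow (Fintype.card ι : ℝ),
      mul_pow (Fintype.card ι : ℝ)]
    gcongr
  have hP' := MR.map (Int.castRingHom ℝ) hP
  refine ⟨∑ I : Mon, monomial (auxMon I.1) (t I), fun h0 => ht (funext fun I => ?_), hP, ?_, ?_,
    fun J hJ => ?_⟩
  · have h1 := congrArg (coeff (auxMon I.1)) h0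
    rw [coeff_sum, Finset.sum_eq_single I (fun I' _ hI' => by
      rw [coeff_monomial, if_neg fun h => hI' (Subtype.ext (aux_mon_inj h))]) (by simp)] at h1
    simpa using h1
  · rw [mul_pow]
    exact hPw.trans (le_mul_of_one_le_right (by positivity) (one_le_pow₀ hK4))
  · rw [mul_pow]
    refine (wr_lr_const sn_abs hP' B hK3).trans ?_
    rw [wr_map]
    gcongr
  · by_contra hlt
    have hJM : (fun h i => J (h, i)) ∈ T := by
      rw [hT]
      exact Finset.mem_filter.2 ⟨(hmem _).2 (hP'.lr _ J hJ), not_le.1 hlt⟩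
    have h2 : auxMon (fun h i => J (h, i)) = J := Finsupp.ext fun s => rfl
    refine mem_support_iff.1 hJ ?_
    have h3 := map_lr S.val.toRingHom (fun _ : Fin m => B')
      (map (Int.castRingHom S) (∑ I : Mon, monomial (auxMon I.1) (t I)))
    rw [MvPolynomial.map_map, RingHom.ext_int (S.val.toRingHom.comp _) (Int.castRingHom ℝ)] at h3
    rw [show lr (fun _ : Fin m => B) = lr fun _ => B'.map S.val.toRingHom from rfl, ← h3,
      coeff_map, hco (coeff J _) fun i => ?_, map_zero]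
    have h4 := congrFun hAt (⟨_, hJM⟩, i)
    simp only [Matrix.mulVec, dotProduct, Matrix.of_apply, h2, Pi.zero_apply] at h4
    rw [map_sum, map_sum, coeff_sum, map_sum, ← h4]
    refine Finset.sum_congr rfl fun I _ => ?_
    rw [map_monomial, show monomial (auxMon I.1) (Int.castRingHom S (t I)) =
      C (Int.castRingHom S (t I)) * monomial (auxMon I.1) 1 by rw [C_mul_monomial, mul_one],
      map_mul, algHom_C, algebraMap_eq, coeff_C_mul, eq_intCast, ← zsmul_eq_mul, map_zsmul,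
      smul_eq_mul, mul_comm]

theorem van_real {ι : Type} [Fintype ι] [DecidableEq ι] {m : ℕ} (M : Fin m → Matrix ι ι ℝ)
    (c : ι → ℝ) (N B : Fin m → ℝ) (d : Fin m → ℕ) (j0 : ι) (Q : MvPolynomial (Fin m × ι) ℝ)
    (T0 K : ℝ) (hQ : MR d Q)
    (h1 : ∀ h i j, j ≠ j0 → |M h i j| ≤ Real.exp (c i * N h))
    (h2 : ∀ h i, |M h i j0| ≤ Real.exp (c i * N h + B h))
    (hK : wr (fun x : ℝ => |x|) 1 Q ≤ K)
    (hT : ∀ J ∈ Q.support, ∑ h, ∑ i, N h * c i * J (h, i) ≤ T0) (J : Fin m × ι →₀ ℕ) :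
    |(lr M Q).coeff J| ≤
      (Fintype.card ι : ℝ) ^ (∑ h, d h) * K * Real.exp (T0 + ∑ h, B h * J (h, j0)) := by
  set β : Fin m × ι → ℝ := fun s => if s.2 = j0 then Real.exp (-B s.1) else 1 with hβ
  have hβ0 : ∀ s, 0 ≤ β s := fun s => by
    simp only [hβ]; split_ifs
    · exact (Real.exp_pos _).le
    · exact zero_le_one
  have e1 : (J.prod fun s e => β s ^ e) = Real.exp (-∑ h, B h * J (h, j0)) := by
    rw [Finsupp.prod_fintype _ _ (by simp), Fintype.prod_prod_type, ← Finset.sum_neg_distrib,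
      Real.exp_sum]
    refine Finset.prod_congr rfl fun h _ => ?_
    rw [Finset.prod_eq_single j0 (fun i _ hi => by simp [hβ, hi]) (by simp)]
    simp only [hβ, if_true]
    rw [← Real.exp_nat_mul]
    congr 1; ring
  have e2 : ∀ s : Fin m × ι, ∑ j, |M s.1 s.2 j| * β (s.1, j) ≤
      Fintype.card ι * Real.exp (c s.2 * N s.1) := fun s => by
    have : ∀ j, |M s.1 s.2 j| * β (s.1, j) ≤ Real.exp (c s.2 * N s.1) := fun j => by
      by_cases hj : j = j0
      · subst hj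
        simp only [hβ, if_true]
        calc _ ≤ Real.exp (c s.2 * N s.1 + B s.1) * Real.exp (-B s.1) :=
              mul_le_mul_of_nonneg_right (h2 _ _) (Real.exp_pos _).le
          _ = _ := by rw [← Real.exp_add]; congr 1; ring
      · simp only [hβ, if_neg hj, mul_one]
        exact h1 _ _ _ hj
    calc _ ≤ ∑ _j : ι, Real.exp (c s.2 * N s.1) := Finset.sum_le_sum fun j _ => this j
      _ = _ := by simp
  have e3 : wr (fun x : ℝ => |x|)
      (fun s : Fin m × ι => (Fintype.card ι : ℝ) * Real.exp (c s.2 * N s.1)) Q ≤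
      wr (fun x : ℝ => |x|) 1 Q * ((Fintype.card ι : ℝ) ^ (∑ h, d h) * Real.exp T0) := by
    refine wr_le_mul sn_abs Q fun J' hJ' => ?_
    rw [Finsupp.prod_fintype _ _ (by simp)]
    simp only [mul_pow, Finset.prod_mul_distrib, Finset.prod_pow_eq_pow_sum, hQ.sum_eq hJ']
    refine mul_le_mul_of_nonneg_left ?_ (by positivity)
    simp only [← Real.exp_nat_mul]
    rw [← Real.exp_sum, Real.exp_le_exp, Fintype.sum_prod_type]
    refine le_of_eq_of_le ?_ (hT J' hJ')
    exact Finset.sum_congr rfl fun h _ => Finset.sum_congr rfl fun i _ => by ring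
  have e4 := (coeff_le_wr sn_abs hβ0 (lr M Q) J).trans ((wr_lr_le sn_abs hβ0 M Q).trans
    ((wr_mono sn_abs (fun s => Finset.sum_nonneg fun j _ => mul_nonneg (abs_nonneg _) (hβ0 _))
      e2 Q).trans (e3.trans (mul_le_mul_of_nonneg_right hK (by positivity)))))
  rw [e1, Real.exp_neg, ← div_eq_mul_inv, div_le_iff₀ (Real.exp_pos _)] at e4
  rw [Real.exp_add]
  exact e4.trans_eq (by ring)

theorem van {ι : Type} [Fintype ι] [DecidableEq ι] {L : Matrix ι ι ℝ} (hL : L.det ≠ 0)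
    (c : ι → ℝ) {m : ℕ} (N B : Fin m → ℝ) (d : Fin m → ℕ) (A : Fin m → Matrix ι ι ℤ) (j0 : ι)
    (P : MvPolynomial (Fin m × ι) ℤ) (T0 K : ℝ) (hP : MH d P)
    (h1 : ∀ h i j, j ≠ j0 → |(L * rm (A h)) i j| ≤ Real.exp (c i * N h))
    (h2 : ∀ h i, |(L * rm (A h)) i j0| ≤ Real.exp (c i * N h + B h))
    (hK : wr (fun x : ℝ => |x|) 1 (lr (fun _ => L.adjugate) (map (Int.castRingHom ℝ) P)) ≤ K)
    (hT : ∀ J ∈ (lr (fun _ => L.adjugate) (map (Int.castRingHom ℝ) P)).support,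
      ∑ h, ∑ i, N h * c i * J (h, i) ≤ T0) :
    ∀ J ∈ (lin A P).support, 1 ≤
      (Fintype.card ι / |L.det|) ^ (∑ h, d h) * K * Real.exp (T0 + ∑ h, B h * J (h, j0)) := by
  intro J hJ
  have hP' := MR.map (Int.castRingHom ℝ) hP
  have e1 := van_real (fun h => L * rm (A h)) c N B d j0 _ T0 K (hP'.lr _) h1 h2 hK hT J
  have e2 := map_lr (Int.castRingHom ℝ) A P
  rw [hP'.lr_adj, coeff_C_mul, show lr (fun h => rm (A h)) =
    lr fun h => (A h).map (Int.castRingHom ℝ) from rfl, ← e2, coeff_map, abs_mul, abs_pow] at e1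
  have e3 : (1 : ℝ) ≤ |Int.castRingHom ℝ ((lr A P).coeff J)| := by
    rw [eq_intCast]
    exact_mod_cast Int.one_le_abs (mem_support_iff.1 hJ)
  have e4 : 0 < |L.det| ^ ∑ h, d h := pow_pos (abs_pos.2 hL) _
  rw [div_pow, div_mul_eq_mul_div, div_mul_eq_mul_div, le_div_iff₀ e4, one_mul]
  exact (le_mul_of_one_le_right e4.le e3).trans e1

end Pool.Agent.P.MP_fea266_nt
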