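import Mathlib

/-! Approximation of linear subspaces by rational subspaces: the first principal angle. -/

set_option autoImplicit false

namespace Pool.Agent.P.MP_fea266_nt

/-- Euclidean space `ℝ^n`. -/
abbrev E (n : ℕ) : Type := EuclideanSpace ℝ (Fin n)

variable {n : ℕ}

/-- An integer vector as a point of `ℝ^n`. -/
noncomputable def iv (u : Fin n → ℤ) : E n := WithLp.toLp 2 fun i => (u i : ℝ)

/-- `B` is spanned by the `e` integer vectors `u k`. -/
def Spans {e : ℕ} (u : Fin e → Fin n → ℤ) (B : Submodule ℝ (E n)) : Prop :=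
  Submodule.span ℝ (Set.range fun k => iv (u k)) = B

/-- `B` is a rational subspace of dimension `e`. -/
def IsRat (e : ℕ) (B : Submodule ℝ (E n)) : Prop :=
  Module.finrank ℝ B = e ∧ ∃ u : Fin e → Fin n → ℤ, Spans u B

/-- The volume of the parallelepiped spanned by the vectors `u k`. -/
noncomputable def vol {e : ℕ} (u : Fin e → Fin n → ℤ) : ℝ :=
  √(Matrix.gram ℝ fun k => iv (u k)).det

/-- The height of a rational subspace `B` of dimension `e`: the least volume spanned by `e` integer
vectors that generate `B`, that is, the covolume of the lattice of integer points of `B`. -/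
noncomputable def height (e : ℕ) (B : Submodule ℝ (E n)) : ℝ :=
  sInf {h | ∃ u : Fin e → Fin n → ℤ, Spans u B ∧ h = vol u}

/-- The sine of the first principal angle between `A` and `B`. -/
noncomputable def psi1 (A B : Submodule ℝ (E n)) : ℝ :=
  sInf {s | ∃ X ∈ A, ∃ Y ∈ B, X ≠ 0 ∧ Y ≠ 0 ∧ s = Real.sin (InnerProductGeometry.angle X Y)}

/-- `A` has dimension `d` and `dim (A ∩ B) < 1` for all rational `B` of dimension `e`. -/
def Irr (d e : ℕ) (A : Submodule ℝ (E n)) : Prop :=
  Module.finrank ℝ A = d ∧ ∀ B, IsRat e B → Module.finrank ℝ (A ⊓ B : Submodule ℝ (E n)) < 1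

/-- The exponent `μ_n(A|e)_1`. -/
noncomputable def muA (A : Submodule ℝ (E n)) (e : ℕ) : EReal :=
  ⨆ (β : ℝ) (_ : 0 < β ∧ {B | IsRat e B ∧ psi1 A B ≤ height e B ^ (-β)}.Infinite), (β : EReal)

/-- The exponent `μ_n(d|e)_1`. -/
noncomputable def mu (n d e : ℕ) : EReal :=
  ⨅ (A : Submodule ℝ (E n)) (_ : Irr d e A), muA A e

end Pool.Agent.P.MP_fea266_nt
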