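import Pool.Agent.P.MP_fea266_nt.Geo

/-! Duality for complementary dimensions. -/

set_option autoImplicit false

open Module Matrix
open scoped RealInnerProductSpace

namespace Pool.Agent.P.MP_fea266_nt

variable {n d e : ℕ}

theorem lat_dual (h : d + e = n) (U : Matrix (Fin e) (Fin n) ℤ) (hU : (U * Uᵀ).det ≠ 0) :
    ∃ V : Matrix (Fin d) (Fin n) ℤ, LinearIndependent ℤ (fun j i => V j i) ∧ V * Uᵀ = 0 ∧
      ∃ t : ℤ, ((V * Vᵀ).det * t) ^ 2 = (V * Vᵀ).det * (U * Uᵀ).det := by
  set f := U.mulVecLin with hf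
  have h1 : finrank ℤ (LinearMap.range f) = e := by
    refine le_antisymm U.rank_le_height ?_
    have := rank_mul_le_left U Uᵀ
    rwa [rank_of_det_ne_zero hU, Fintype.card_fin] at this
  have h2 : finrank ℤ (LinearMap.ker f) = d := by
    have := (LinearMap.ker f).finrank_quotient_add_finrank
    rw [f.quotKerEquivRange.finrank_eq, h1, finrank_fin_fun] at this
    omega
  obtain ⟨g, hg⟩ := f.rangeRestrict.exists_rightInverse_of_surjective f.range_rangeRestrict
  let v := finBasisOfFinrankEq ℤ _ h2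
  let c := finBasisOfFinrankEq ℤ _ h1
  let V : Matrix (Fin d) (Fin n) ℤ := of fun j => (v j : Fin n → ℤ)
  let Z : Matrix (Fin e) (Fin n) ℤ := of fun k => g (c k)
  have h3 : V * Uᵀ = 0 := by
    ext j k
    exact (dotProduct_comm _ _).trans (congrFun (v j).2 k)
  have h4 : ∀ x : Fin n → ℤ, ∃ r : Fin d ⊕ Fin e → ℤ, r ᵥ* fromRows V Z = x := fun x => by
    have e1 : x - g (f.rangeRestrict x) ∈ LinearMap.ker f := by
      rw [LinearMap.mem_ker, map_sub, sub_eq_zero]
      exact (congrArg Subtype.val (LinearMap.congr_fun hg (f.rangeRestrict x))).symm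
    refine ⟨Sum.elim (v.repr ⟨_, e1⟩) (c.repr (f.rangeRestrict x)), ?_⟩
    have e2 := congrArg (LinearMap.ker f).subtype (v.sum_repr ⟨_, e1⟩)
    have e3 := congrArg g (c.sum_repr (f.rangeRestrict x))
    simp only [map_sum, map_smul, Submodule.subtype_apply] at e2 e3
    rw [sumElim_vecMul_fromRows, vecMul_eq_sum, vecMul_eq_sum]
    exact (congrArg₂ (· + ·) e2 e3).trans (sub_add_cancel _ _)
  choose r hr using h4
  let ε : Fin d ⊕ Fin e ≃ Fin n := finSumFinEquiv.trans (finCongr h)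
  have h5 : ∀ P Q : Matrix (Fin d ⊕ Fin e) (Fin n) ℤ,
      (P * Qᵀ).det = (P.submatrix id ε).det * (Q.submatrix id ε).det := fun P Q => by
    rw [← det_transpose (Q.submatrix id ε), ← det_mul, transpose_submatrix, submatrix_mul_equiv]
    rfl
  have h6 : ((fromRows V Z).submatrix id ε).det ^ 2 = 1 := by
    have e1 : (of fun s => r (Pi.single (ε s) 1)) * (fromRows V Z).submatrix id ε = 1 := by
      ext s s'
      have := congrFun (hr (Pi.single (ε s) 1)) (ε s')
      rw [Pi.single_apply] at this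
      simpa [mul_apply, vecMul, dotProduct, one_apply, eq_comm] using this
    have e2 := congrArg det e1
    rw [det_mul, det_one, mul_comm] at e2
    rcases Int.eq_one_or_neg_one_of_mul_eq_one e2 with e3 | e3 <;> rw [e3] <;> rfl
  refine ⟨V, v.linearIndependent.map' (LinearMap.ker f).subtype (Submodule.ker_subtype _), h3,
    (Z * Uᵀ).det, ?_⟩
  have h7 := h5 (fromRows V Z) (fromRows V U)
  have h8 := h5 (fromRows V U) (fromRows V U)
  rw [transpose_fromRows, fromRows_mul_fromCols, h3, det_fromBlocks_zero₁₂] at h7 h8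
  rw [h7, h8, mul_pow, h6, one_mul, sq]

theorem rat_dual (h : d + e = n) {B : Submodule ℝ (E n)} (hB : finrank ℝ B = e)
    {u : Fin e → Fin n → ℤ} (hu : Spans u B) :
    ∃ v : Fin d → Fin n → ℤ, Spans v Bᗮ ∧ vol v ≤ vol u := by
  have h1 := det_pos (hu.indep hB)
  obtain ⟨V, h2, h3, t, h4⟩ := lat_dual h (of u) h1.ne'
  have h5 : LinearIndependent ℝ fun k => iv (V k) :=
    ((linearIndependent_algebraMap_comp_iff (S := ℝ)).2 h2).map'
      (WithLp.linearEquiv 2 ℝ _).symm.toLinearMap (LinearEquiv.ker _)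
  have h6 : 0 < (V * Vᵀ).det := det_pos h5
  refine ⟨V, Submodule.eq_of_le_of_finrank_eq (Submodule.span_le.2 ?_) ?_,
    Real.sqrt_le_sqrt ?_⟩
  · rintro _ ⟨j, rfl⟩
    rw [← hu, SetLike.mem_coe, Submodule.mem_orthogonal']
    intro Y hY
    induction hY using Submodule.span_induction with
    | mem x hx =>
      obtain ⟨k, rfl⟩ := hx
      rw [inner_iv]
      exact_mod_cast congrFun (congrFun h3 j) k
    | zero => exact inner_zero_right _
    | add x y _ _ e1 e2 => rw [inner_add_right, e1, e2, add_zero]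
    | smul r x _ e1 => rw [inner_smul_right, e1, mul_zero]
  · have := finrank_orth B
    rw [finrank_span_eq_card h5, Fintype.card_fin]
    omega
  · rw [det_gram, det_gram, Int.cast_le]
    have h7 : (V * Vᵀ).det * t ^ 2 = (of u * (of u)ᵀ).det :=
      mul_left_cancel₀ h6.ne' (by rw [← h4]; ring)
    have h8 : t ≠ 0 := fun e => by simp [e, h1.ne] at h7
    exact h7 ▸ le_mul_of_one_le_right h6.le ((one_le_sq_iff_one_le_abs t).2 (Int.one_le_abs h8))

theorem IsRat.dual (h : d + e = n) {B : Submodule ℝ (E n)} (hB : IsRat e B) :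
    IsRat d Bᗮ ∧ height d Bᗮ ≤ height e B := by
  refine ⟨⟨by have := finrank_orth B; have := hB.1; omega, ?_⟩, le_height hB fun u hu => ?_⟩
  · obtain ⟨u, hu⟩ := hB.2
    exact (rat_dual h hB.1 hu).imp fun v hv => hv.1
  · obtain ⟨v, h1, h2⟩ := rat_dual h hB.1 hu
    exact (height_le h1).trans h2

theorem Irr.inf {A B : Submodule ℝ (E n)} (hA : Irr d e A) (hB : IsRat e B) : A ⊓ B = ⊥ :=
  Submodule.finrank_eq_zero.1 (Nat.lt_one_iff.1 (hA.2 B hB))

theorem mu_dual (h : d + e = n) (hd : 0 < d) (he : 0 < e) : mu n d e ≤ mu n e d := by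
  refine le_iInf₂ fun A hA => (iInf₂_le Aᗮ (show Irr d e Aᗮ from ⟨?_, fun B hB => ?_⟩)).trans ?_
  · have := finrank_orth A
    have := hA.1
    omega
  · have h1 := (hB.dual h).1
    have h2 := Submodule.inf_orthogonal A Bᗮ
    rw [sup_top (by rw [hA.1, h1.1]; omega) (hA.inf h1), Submodule.orthogonal_orthogonal,
      Submodule.top_orthogonal_eq_bot] at h2
    rw [h2, finrank_bot]
    exact one_pos
  · refine iSup₂_le fun β hβ => le_iSup₂_of_le β (And.intro hβ.1 ((hβ.2.image
      (f := Submodule.orthogonal) fun B _ B' _ e => ?_).mono ?_)) le_rfl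
    · simpa using congrArg (fun K : Submodule ℝ (E n) => Kᗮ) e
    · rintro _ ⟨B, ⟨hB, h1⟩, rfl⟩
      obtain ⟨h2, h3⟩ := hB.dual h
      have h4 := psi_dual (A := A) (B := Bᗮ) (by rw [hA.1, h2.1]; omega) (hA.1 ▸ he) (h2.1 ▸ hd)
      rw [Submodule.orthogonal_orthogonal] at h4
      exact ⟨h2, h4.trans (h1.trans (Real.rpow_le_rpow_of_nonpos
        (one_pos.trans_le (one_le_height h2)) h3 (neg_nonpos.2 hβ.1.le)))⟩

end Pool.Agent.P.MP_fea266_nt
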