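import Pool.Agent.P.MP_fea266_nt.Defs

/-! The first principal angle and the height: basic inequalities. -/

set_option autoImplicit false

open InnerProductGeometry Module Matrix
open scoped RealInnerProductSpace

namespace Pool.Agent.P.MP_fea266_nt

variable {n : ℕ} {A B : Submodule ℝ (E n)}

theorem norm_sub_sq_angle (X Y : E n) (t : ℝ) : ‖Y - t • X‖ ^ 2 =
    (Real.sin (angle X Y) * ‖Y‖) ^ 2 + (t * ‖X‖ - Real.cos (angle X Y) * ‖Y‖) ^ 2 := by
  rw [norm_sub_sq_real, norm_smul, inner_smul_right, real_inner_comm,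
    ← cos_angle_mul_norm_mul_norm, mul_pow ‖t‖, Real.norm_eq_abs, sq_abs]
  linear_combination (-‖Y‖ ^ 2) * Real.sin_sq_add_cos_sq (angle X Y)

theorem psi_bdd (A B : Submodule ℝ (E n)) : ∀ s ∈ {s | ∃ X ∈ A, ∃ Y ∈ B, X ≠ 0 ∧ Y ≠ 0 ∧
    s = Real.sin (angle X Y)}, (0 : ℝ) ≤ s := by
  rintro _ ⟨X, -, Y, -, -, -, rfl⟩
  exact sin_angle_nonneg X Y

theorem psi_nonneg (A B : Submodule ℝ (E n)) : 0 ≤ psi1 A B := Real.sInf_nonneg (psi_bdd A B)

theorem psi_comm (A B : Submodule ℝ (E n)) : psi1 A B = psi1 B A := by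
  unfold psi1
  congr 1
  ext s
  constructor <;> rintro ⟨X, hX, Y, hY, h1, h2, h3⟩ <;>
    exact ⟨Y, hY, X, hX, h2, h1, by rw [h3, angle_comm]⟩

theorem psi_le (hA : A ≠ ⊥) {X Y : E n} (hX : X ∈ A) (hY : Y ∈ B) :
    psi1 A B * ‖Y‖ ≤ ‖Y - X‖ := by
  by_cases h0 : Y = 0
  · simp [h0]
  obtain ⟨Z, t, hZ, h1, rfl⟩ : ∃ (Z : E n) (t : ℝ), Z ∈ A ∧ Z ≠ 0 ∧ X = t • Z := by
    by_cases h : X = 0
    · obtain ⟨Z, h1, h2⟩ := (Submodule.ne_bot_iff A).1 hA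
      exact ⟨Z, 0, h1, h2, by rw [h, zero_smul]⟩
    · exact ⟨X, 1, hX, h, (one_smul _ _).symm⟩
  refine (mul_le_mul_of_nonneg_right (csInf_le ⟨0, psi_bdd A B⟩ ⟨Z, hZ, Y, hY, h1, h0, rfl⟩)
    (norm_nonneg _)).trans (le_of_sq_le_sq ?_ (norm_nonneg _))
  rw [norm_sub_sq_angle]
  exact le_add_of_nonneg_right (sq_nonneg _)

theorem le_psi (hA : A ≠ ⊥) (hB : B ≠ ⊥) {s : ℝ} (h : ∀ X ∈ A, ∀ Y ∈ B, s * ‖Y‖ ≤ ‖Y - X‖) :
    s ≤ psi1 A B := by
  obtain ⟨X0, h1, h2⟩ := (Submodule.ne_bot_iff A).1 hA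
  obtain ⟨Y0, h3, h4⟩ := (Submodule.ne_bot_iff B).1 hB
  refine le_csInf ⟨_, X0, h1, Y0, h3, h2, h4, rfl⟩ ?_
  rintro _ ⟨X, hX, Y, hY, h5, h6, rfl⟩
  have h7 := norm_sub_sq_angle X Y (Real.cos (angle X Y) * ‖Y‖ / ‖X‖)
  rw [div_mul_cancel₀ _ (norm_ne_zero_iff.2 h5), sub_self, zero_pow two_ne_zero, add_zero,
    sq_eq_sq₀ (norm_nonneg _) (mul_nonneg (sin_angle_nonneg X Y) (norm_nonneg _))] at h7
  exact le_of_mul_le_mul_right ((h _ (A.smul_mem _ hX) Y hY).trans_eq h7) (norm_pos_iff.2 h6)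

theorem psi_pos (hA : A ≠ ⊥) (hB : B ≠ ⊥) (h : A ⊓ B = ⊥) : 0 < psi1 A B := by
  obtain ⟨K, hK, h1⟩ := (Aᗮ.starProjection.toLinearMap.comp B.subtype).exists_antilipschitzWith
    (LinearMap.ker_eq_bot'.2 fun Y hY => Subtype.ext ((Submodule.eq_bot_iff _).1 h _ ⟨by
      simpa using (Submodule.starProjection_apply_eq_zero_iff _).1 hY, Y.2⟩))
  have hK' : (0 : ℝ) < K := hK
  refine (inv_pos.2 hK').trans_le (le_psi hA hB fun X hX Y hY => ?_)
  have h2 : ‖Y‖ ≤ K * ‖Aᗮ.starProjection Y‖ := by simpa using h1.le_mul_dist ⟨Y, hY⟩ 0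
  have h3 := Aᗮ.norm_starProjection_apply_le (Y - X)
  rw [map_sub, Submodule.starProjection_orthogonal_apply_eq_zero hX, sub_zero] at h3
  rw [inv_mul_le_iff₀ hK']
  exact h2.trans (mul_le_mul_of_nonneg_left h3 hK'.le)

theorem sup_top (hd : finrank ℝ A + finrank ℝ B = n) (h : A ⊓ B = ⊥) : A ⊔ B = ⊤ := by
  have := Submodule.finrank_sup_add_finrank_inf_eq A B
  rw [h, finrank_bot, hd] at this
  exact Submodule.eq_top_of_finrank_eq (by simpa using this)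

theorem finrank_orth (A : Submodule ℝ (E n)) : finrank ℝ A + finrank ℝ Aᗮ = n := by
  simpa using A.finrank_add_finrank_orthogonal

theorem ne_bot_of (h : 0 < finrank ℝ A) : A ≠ ⊥ := fun e => by
  rw [e, finrank_bot] at h
  exact lt_irrefl _ h

theorem psi_dual (hd : finrank ℝ A + finrank ℝ B = n) (hA : 0 < finrank ℝ A)
    (hB : 0 < finrank ℝ B) : psi1 A B ≤ psi1 Aᗮ Bᗮ := by
  have h1 := finrank_orth A
  have h2 := finrank_orth B
  rcases (psi_nonneg A B).eq_or_lt with h | h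
  · exact h ▸ psi_nonneg _ _
  have h3 := sup_top hd ((Submodule.eq_bot_iff _).2 fun Y hY => by
    have := psi_le (ne_bot_of hA) hY.1 hY.2
    rw [sub_self, norm_zero] at this
    exact norm_le_zero_iff.1 (le_of_mul_le_mul_left (by simpa using this) h))
  rw [psi_comm Aᗮ]
  refine le_psi (ne_bot_of (by omega)) (ne_bot_of (by omega)) fun X' hX' Y' hY' => ?_
  obtain ⟨X, hX, Y, hY, e⟩ := Submodule.mem_sup.1 (h3 ▸ Submodule.mem_top : Y' ∈ A ⊔ B)
  have h4 := psi_le (ne_bot_of hA) (A.neg_mem hX) hY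
  rw [sub_neg_eq_add, add_comm, e] at h4
  have h5 : ‖Y'‖ * ‖Y'‖ ≤ ‖Y‖ * ‖Y' - X'‖ := by
    refine le_of_eq_of_le ?_ (real_inner_le_norm _ _)
    rw [inner_sub_right, hX' Y hY, sub_zero, ← real_inner_self_eq_norm_mul_norm]
    conv_lhs => rw [← e, inner_add_left, e, hY' X hX, zero_add]
  rcases (norm_nonneg Y').eq_or_lt with h6 | h6
  · rw [← h6, mul_zero]
    exact norm_nonneg _
  · refine le_of_mul_le_mul_right ?_ h6
    nlinarith [mul_le_mul_of_nonneg_left h5 h.le, norm_nonneg (Y' - X')]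

theorem inner_iv (u v : Fin n → ℤ) : ⟪iv u, iv v⟫ = ((∑ i, u i * v i : ℤ) : ℝ) := by
  simp [iv, PiLp.inner_apply, mul_comm]

theorem det_gram {e : ℕ} (u : Fin e → Fin n → ℤ) :
    (gram ℝ fun k => iv (u k)).det = ((of u * (of u)ᵀ).det : ℤ) := by
  rw [Int.cast_det]
  congr 1
  ext i j
  simp [gram_apply, inner_iv, mul_apply]

theorem Spans.indep {e : ℕ} {u : Fin e → Fin n → ℤ} (h : Spans u B) (hB : finrank ℝ B = e) :
    LinearIndependent ℝ fun k => iv (u k) :=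
  linearIndependent_iff_card_eq_finrank_span.2 (by
    rw [Set.finrank, h, hB, Fintype.card_fin])

theorem det_pos {e : ℕ} {u : Fin e → Fin n → ℤ} (h : LinearIndependent ℝ fun k => iv (u k)) :
    0 < (of u * (of u)ᵀ).det := by
  have := (posDef_gram_of_linearIndependent h).det_pos
  rw [det_gram] at this
  exact_mod_cast this

theorem height_le {e : ℕ} {u : Fin e → Fin n → ℤ} (h : Spans u B) : height e B ≤ vol u :=
  csInf_le ⟨0, by rintro _ ⟨u, -, rfl⟩; exact Real.sqrt_nonneg _⟩ ⟨u, h, rfl⟩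

theorem le_height {e : ℕ} (hB : IsRat e B) {s : ℝ}
    (h : ∀ u : Fin e → Fin n → ℤ, Spans u B → s ≤ vol u) : s ≤ height e B := by
  obtain ⟨u, hu⟩ := hB.2
  exact le_csInf ⟨_, u, hu, rfl⟩ (by rintro _ ⟨u, hu, rfl⟩; exact h u hu)

theorem one_le_height {e : ℕ} (hB : IsRat e B) : 1 ≤ height e B :=
  le_height hB fun u hu => Real.one_le_sqrt.2 (by
    rw [det_gram]
    exact_mod_cast det_pos (hu.indep hB.1))

theorem exists_vol {e : ℕ} (hB : IsRat e B) :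
    ∃ u : Fin e → Fin n → ℤ, Spans u B ∧ vol u ≤ 2 * height e B := by
  by_contra h
  push Not at h
  linarith [le_height hB fun u hu => (h u hu).le, one_le_height hB]

end Pool.Agent.P.MP_fea266_nt
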