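import Mathlib

/-! A real algebraic integer of degree eight. -/

set_option autoImplicit false

open Polynomial

namespace Pool.Agent.P.MP_fea266_nt

/-- the polynomial of degree eight -/
noncomputable def ff : ℤ[X] :=
  X ^ 8 + 4 * X ^ 7 - 16 * X ^ 6 - 46 * X ^ 5 + 121 * X ^ 4 + 126 * X ^ 3 - 322 * X ^ 2 -
    96 * X ^ 1 + 274 * X ^ 0

theorem ff_monic : ff.Monic := by
  unfold ff
  monicity!

theorem ff_deg : ff.natDegree = 8 := by
  unfold ff
  compute_degree!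

set_option synthInstance.maxSize 4000 in
theorem ff_irr : Irreducible ff := by
  refine ff_monic.irreducible_iff_natDegree'.2 ⟨fun h => by simpa [h] using ff_deg,
    fun p q hp hq h hd => ?_⟩
  have h1 := hp.natDegree_mul hq
  rw [h] at h1
  rw [ff_deg] at h1 hd
  have h2 := Finset.mem_Ioc.1 hd
  have h3 : ∀ i, 8 ≤ i → (p.coeff i : ZMod 3) = 0 := fun i hi => by
    rw [coeff_eq_zero_of_natDegree_lt (by omega), Int.cast_zero]
  have h4 : ∀ i, 5 ≤ i → (q.coeff i : ZMod 3) = 0 := fun i hi => by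
    rw [coeff_eq_zero_of_natDegree_lt (by omega), Int.cast_zero]
  have E : ∀ k, ∑ i ∈ Finset.range (k + 1), (p.coeff i : ZMod 3) * q.coeff (k - i) =
      ff.coeff k := fun k => by
    rw [← h, coeff_mul, Finset.Nat.sum_antidiagonal_eq_sum_range_succ_mk]
    push_cast
    rfl
  have key : ∀ b0 b1 b2 b3 b4 a0 : ZMod 3, a0 * b0 = 274 → ∀ a1, a0 * b1 + a1 * b0 = -96 →
      ∀ a2, a0 * b2 + a1 * b1 + a2 * b0 = -322 → ∀ a3, a0 * b3 + a1 * b2 + a2 * b1 + a3 * b0 = 126 →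
      ∀ a4, a0 * b4 + a1 * b3 + a2 * b2 + a3 * b1 + a4 * b0 = 121 →
      ∀ a5, a1 * b4 + a2 * b3 + a3 * b2 + a4 * b1 + a5 * b0 = -46 →
      ∀ a6, a2 * b4 + a3 * b3 + a4 * b2 + a5 * b1 + a6 * b0 = -16 →
      ∀ a7, a3 * b4 + a4 * b3 + a5 * b2 + a6 * b1 + a7 * b0 = 4 →
      a4 * b4 + a5 * b3 + a6 * b2 + a7 * b1 = 1 → a5 * b4 + a6 * b3 + a7 * b2 = 0 →
      a6 * b4 + a7 * b3 = 0 → a7 * b4 = 0 → False := by decide +kernel
  have e0 := E 0
  have e1 := E 1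
  have e2 := E 2
  have e3 := E 3
  have e4 := E 4
  have e5 := E 5
  have e6 := E 6
  have e7 := E 7
  have e8 := E 8
  have e9 := E 9
  have e10 := E 10
  have e11 := E 11
  simp (disch := decide) only [Finset.sum_range_succ, Finset.sum_range_zero, Nat.reduceSub,
    Nat.sub_zero, h3, h4, zero_add, add_zero, mul_zero, zero_mul, ff, coeff_add, coeff_sub,
    coeff_ofNat_mul, coeff_X_pow, Nat.reduceEqDiff, if_true, if_false, sub_zero, mul_one, zero_sub,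
    Int.cast_neg, Int.cast_ofNat, Int.cast_one, Int.cast_zero, Nat.sub_self]
    at e0 e1 e2 e3 e4 e5 e6 e7 e8 e9 e10 e11
  exact key _ _ _ _ _ _ e0 _ e1 _ e2 _ e3 _ e4 _ e5 _ e6 _ e7 e8 e9 e10 e11

theorem theta : ∃ t : ℝ, IsIntegral ℤ t ∧ t ^ 8 + 4 * t ^ 7 - 16 * t ^ 6 - 46 * t ^ 5 +
    121 * t ^ 4 + 126 * t ^ 3 - 322 * t ^ 2 - 96 * t + 274 = 0 ∧
      ∀ c : Fin 7 → ℤ, ∑ i, c i * t ^ (i : ℕ) = 0 → c = 0 := by
  obtain ⟨t, -, h⟩ := intermediate_value_Icc (a := (-4 : ℝ)) (b := -3)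
    (f := fun t : ℝ => t ^ 8 + 4 * t ^ 7 - 16 * t ^ 6 - 46 * t ^ 5 + 121 * t ^ 4 + 126 * t ^ 3 -
      322 * t ^ 2 - 96 * t + 274) (by norm_num) (by fun_prop) (show (0 : ℝ) ∈ _ by norm_num)
  have h1 : aeval t ff = 0 := by simpa [ff, map_ofNat] using h
  have h2 : IsIntegral ℤ t := ⟨ff, ff_monic, h1⟩
  refine ⟨t, h2, h, fun c hc => ?_⟩
  have h3 : ∑ i : Fin 7, C (c i) * X ^ (i : ℕ) = 0 := by
    by_contra h0
    have e1 := ((minpoly.irreducible h2).dvd_symm ff_irr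
      (minpoly.isIntegrallyClosed_dvd h2 h1)).trans (minpoly.isIntegrallyClosed_dvd h2
        (p := ∑ i : Fin 7, C (c i) * X ^ (i : ℕ)) (by simpa using hc))
    have e2 := natDegree_le_of_dvd e1 h0
    have e3 := (natDegree_lt_iff_degree_lt h0).2 (degree_sum_fin_lt c)
    rw [ff_deg] at e2
    omega
  funext i
  have := congrArg (coeff · i) h3
  simpa only [finsetSum_coeff, coeff_C_mul_X_pow, Fin.val_inj, Finset.sum_ite_eq, Finset.mem_univ,
    if_true, coeff_zero, Pi.zero_apply] using this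

end Pool.Agent.P.MP_fea266_nt
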