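import Pool.Agent.P.MP_fea266_nt.Aniso
import Pool.Agent.P.MP_fea266_nt.Theta
import Pool.Agent.P.MP_fea266_nt.Geo

/-! A real decomposable alternating form that is a combination of the seven linear forms. -/

set_option autoImplicit false

open Matrix
open scoped RealInnerProductSpace

namespace Pool.Agent.P.MP_fea266_nt

/-- the pairing of the bivectors `a ∧ b` and `u ∧ v` -/
noncomputable def om (a b : E 8) (u v : Fin 8 → ℤ) : ℝ :=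
  ⟪a, iv u⟫ * ⟪b, iv v⟫ - ⟪a, iv v⟫ * ⟪b, iv u⟫

/-- the coefficients of the seven algebraic numbers -/
def cf : Fin 7 → Fin 7 → ℤ :=
  ![![17, -6, -9, 2, 1, 0, 0], ![-73, 30, 55, -21, -12, 3, 1], ![-14, 2, 11, -2, -1, 0, 0],
    ![-77, 30, 62, -23, -13, 3, 1], ![-26, 2, 13, -2, -1, 0, 0], ![42, -50, -19, 28, -1, -2, 0],
    ![60, -32, -29, 24, -1, -2, 0]]

theorem inner_lp (a : Fin 8 → ℝ) (u : Fin 8 → ℤ) :
    ⟪(WithLp.toLp 2 a : E 8), iv u⟫ = ∑ i, u i * a i := by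
  simp [iv, PiLp.inner_apply]

theorem ex : ∃ (a b : E 8) (γ : Fin 7 → ℝ) (κ : ℝ), κ ≠ 0 ∧ (∀ i, IsIntegral ℤ (γ i)) ∧
    (∀ l : Fin 7 → ℤ, ∑ i, l i * γ i = 0 → l = 0) ∧
      ∀ u v, om a b u v = κ * ∑ k, ww (pl u v) k * γ k := by
  obtain ⟨t, h1, hf, h2⟩ := theta
  obtain ⟨g, hg⟩ : ∃ g : Fin 7 → ℝ, ∀ k, g k = ∑ j, cf k j * t ^ (j : ℕ) := ⟨_, fun _ => rfl⟩
  have h3 : ∀ l : Fin 7 → ℤ, ∑ i, l i * g i = 0 → l = 0 := fun l hl => by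
    have e := h2 (fun j => ∑ k, l k * cf k j) (by
      simp only [← hl, hg, Int.cast_sum, Int.cast_mul, Finset.sum_mul, Finset.mul_sum, mul_assoc]
      exact Finset.sum_comm)
    have e0 := congrFun e 0
    have e1 := congrFun e 1
    have e2 := congrFun e 2
    have e3 := congrFun e 3
    have e4 := congrFun e 4
    have e5 := congrFun e 5
    have e6 := congrFun e 6
    simp only [Fin.sum_univ_seven, cf, cons_val, Pi.zero_apply] at e0 e1 e2 e3 e4 e5 e6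
    have : l 0 = 0 ∧ l 1 = 0 ∧ l 2 = 0 ∧ l 3 = 0 ∧ l 4 = 0 ∧ l 5 = 0 ∧ l 6 = 0 := by
      refine ⟨?_, ?_, ?_, ?_, ?_, ?_, ?_⟩ <;> linarith
    funext i
    fin_cases i <;> simp [this]
  refine ⟨WithLp.toLp 2 ![0, -2 * g 0, 2 * g 2, -2 * g 1, g 3 - g 1, -g 4, -g 5, -g 6],
    WithLp.toLp 2 ![2 * g 0, 0, -2 * g 1, -2 * g 2, g 4, g 3 - g 1, -g 6, g 5], g, -2 * g 0,
    mul_ne_zero (by norm_num) fun e => ?_, fun k => hg k ▸ IsIntegral.sum _ fun j _ =>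
      (isIntegral_algebraMap (x := cf k j)).mul (h1.pow _), h3, fun u v => ?_⟩
  · simpa using congrFun (h3 (Pi.single 0 1) (by simp [Pi.single_apply, e])) 0
  · simp only [om, inner_lp, Fin.sum_univ_eight, Fin.sum_univ_seven, hg, cf, ww, cons_val,
      Fin.coe_ofNat_eq_mod, Nat.reduceMod]
    simp only [pl]
    push_cast
    linear_combination ((-68 + 32 * t + 28 * t ^ 2 - 8 * t ^ 3 - 4 * t ^ 4) *
        (u 2 * v 3 - u 3 * v 2) + (10 - 6 * t - 2 * t ^ 2) * (u 2 * v 4 - u 4 * v 2) +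
      (-6 - 2 * t + 2 * t ^ 2) * (u 2 * v 5 - u 5 * v 2) +
      (30 - 30 * t - 2 * t ^ 2 + 4 * t ^ 3) * (u 2 * v 6 - u 6 * v 2) +
      (18 - 14 * t - 2 * t ^ 2 + 4 * t ^ 3) * (u 2 * v 7 - u 7 * v 2) +
      (-6 - 2 * t + 2 * t ^ 2) * (u 3 * v 4 - u 4 * v 3) +
      (-10 + 6 * t + 2 * t ^ 2) * (u 3 * v 5 - u 5 * v 3) +
      (-18 + 14 * t + 2 * t ^ 2 - 4 * t ^ 3) * (u 3 * v 6 - u 6 * v 3) +
      (30 - 30 * t - 2 * t ^ 2 + 4 * t ^ 3) * (u 3 * v 7 - u 7 * v 3) +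
      6 * (u 4 * v 5 - u 5 * v 4) + (16 - 4 * t - 4 * t ^ 2) * (u 4 * v 6 - u 6 * v 4) +
      (-14 + 4 * t) * (u 4 * v 7 - u 7 * v 4) + (-14 + 4 * t) * (u 5 * v 6 - u 6 * v 5) +
      (-16 + 4 * t + 4 * t ^ 2) * (u 5 * v 7 - u 7 * v 5) +
      (-30 + 24 * t - 8 * t ^ 2) * (u 6 * v 7 - u 7 * v 6)) * hf

end Pool.Agent.P.MP_fea266_nt
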