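import Pool.Agent.P.MP_fea266_nt.Pack
import Pool.Agent.P.MP_fc15d7_nt.THT

/-! The height of the hyperplanes spanned by points of the boxes. -/

set_option autoImplicit false

open Matrix Filter

namespace Pool.Agent.P.MP_fea266_nt

open Pool.Agent.P.MP_fc15d7_nt

variable {ι : Type} [Fintype ι]

/-- `|L x|_i ≤ exp (c i N)` -/
def Box (L : Matrix ι ι ℝ) (c : ι → ℝ) (N : ℝ) (x : ι → ℤ) : Prop :=
  ∀ i, |(L *ᵥ rv x) i| ≤ Real.exp (c i * N)

theorem rm_mul (A B : Matrix ι ι ℤ) : rm (A * B) = rm A * rm B := Matrix.map_mul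

theorem mul_rm (L : Matrix ι ι ℝ) (Y : Matrix ι ι ℤ) (i j : ι) :
    (L * rm Y) i j = (L *ᵥ rv fun i => Y i j) i := rfl

variable [DecidableEq ι]

theorem rm_det (A : Matrix ι ι ℤ) : (rm A).det = A.det := (Int.cast_det A).symm

theorem rm_adj (A : Matrix ι ι ℤ) : (rm A).adjugate = rm A.adjugate :=
  ((Int.castRingHom ℝ).map_adjugate A).symm

theorem adj_abs (A : Matrix ι ι ℝ) (i j0 : ι) (c : ι → ℝ) (N : ℝ)
    (h : ∀ j, j ≠ j0 → ∀ i', |A i' j| ≤ Real.exp (c i' * N)) :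
    |A.adjugate j0 i| ≤ (Fintype.card ι).factorial * Real.exp ((∑ i', c i' - c i) * N) := by
  rw [adjugate_apply]
  refine abs_det_le _ fun σ => ?_
  by_cases e : σ.symm i = j0
  · rw [← Equiv.prod_comp σ.symm, ← Finset.mul_prod_erase _ _ (Finset.mem_univ i)]
    simp only [Equiv.apply_symm_apply]
    rw [updateRow_self, e, Pi.single_eq_same, abs_one, one_mul,
      ← Finset.sum_erase_eq_sub (Finset.mem_univ i), Finset.sum_mul, Real.exp_sum]
    refine Finset.prod_le_prod (fun _ _ => abs_nonneg _) fun i' hi => ?_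
    rw [updateRow_ne (Finset.ne_of_mem_erase hi)]
    exact h _ (fun e' => Finset.ne_of_mem_erase hi (σ.symm.injective (e'.trans e.symm))) i'
  · rw [Finset.prod_eq_zero (Finset.mem_univ (σ.symm i)) (by
      rw [Equiv.apply_symm_apply, updateRow_self, Pi.single_eq_of_ne e, abs_zero])]
    positivity

theorem adj_row (L : Matrix ι ι ℝ) (Y : Matrix ι ι ℤ) (j0 : ι) :
    rv (Y.adjugate j0) ᵥ* L.adjugate = (L * rm Y).adjugate j0 := by
  rw [adjugate_mul_distrib, rm_adj]; rfl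

theorem ht_one {L : Matrix ι ι ℝ} {c : ι → ℝ} (hL : L.det ≠ 0) {w x : ι → ℤ} {c0 N : ℝ}
    (hN : 0 ≤ N) (h0 : ∀ i, (rv w ᵥ* L.adjugate) i ≠ 0 → c i ≤ c0) (hx : Box L c N x)
    (hne : ∑ i, w i * x i ≠ 0) :
    Real.exp (-c0 * N) ≤ (∑ i, |(rv w ᵥ* L.adjugate) i|) / |L.det| := by
  have a1 : L.det * (rv w ⬝ᵥ rv x) = (rv w ᵥ* L.adjugate) ⬝ᵥ (L *ᵥ rv x) := by
    rw [dotProduct_mulVec, vecMul_vecMul, adjugate_mul, vecMul_smul, vecMul_one, smul_dotProduct,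
      smul_eq_mul]
  have a2 : (1 : ℝ) ≤ |rv w ⬝ᵥ rv x| := by
    have : rv w ⬝ᵥ rv x = (∑ i, w i * x i : ℤ) := by simp [rv, dotProduct]
    rw [this]
    exact_mod_cast Int.one_le_abs hne
  have a3 : |L.det| ≤ (∑ i, |(rv w ᵥ* L.adjugate) i|) * Real.exp (c0 * N) := by
    refine (le_mul_of_one_le_right (abs_nonneg _) a2).trans ?_
    rw [← abs_mul, a1, dotProduct, Finset.sum_mul]
    refine (Finset.abs_sum_le_sum_abs _ _).trans (Finset.sum_le_sum fun i _ => ?_)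
    by_cases hi : (rv w ᵥ* L.adjugate) i = 0
    · simp [hi]
    · rw [abs_mul]
      exact mul_le_mul_of_nonneg_left ((hx i).trans (Real.exp_le_exp.2
        (mul_le_mul_of_nonneg_right (h0 i hi) hN))) (abs_nonneg _)
  rw [le_div_iff₀ (abs_pos.2 hL), neg_mul, Real.exp_neg, inv_mul_le_iff₀ (Real.exp_pos _), mul_comm]
  exact a3

theorem ht {L : Matrix ι ι ℝ} (hA : Alg L) (hL : L.det ≠ 0) {c : ι → ℝ} (hc : ∑ i, c i < 0)
    (U : Ultrafilter ℕ) {N : ℕ → ℝ} (Y : ℕ → Matrix ι ι ℤ) (j0 : ι) (hN : Tendsto N U atTop)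
    (hY : ∀ᶠ n in U, (Y n).det ≠ 0 ∧ ∀ j, j ≠ j0 → Box L c (N n) fun i => Y n i j) :
    (∃ w : ι → ℤ, w ≠ 0 ∧ ∀ᶠ n in U, ∀ j, j ≠ j0 → ∑ i, w i * Y n i j = 0) ∨
      ∃ (θ : ℝ) (i1 i2 : ι), 0 < θ ∧ i1 ≠ i2 ∧ ∀ᶠ n in U, (Y n).adjugate j0 i1 ≠ 0 ∧
        θ * N n ≤ Real.log (((Y n).adjugate j0 i2 : ℚ) / (Y n).adjugate j0 i1).den := by
  have hN0 : ∀ᶠ n in U, 0 ≤ N n := hN.eventually_ge_atTop 0
  obtain ⟨i0, h0⟩ : ∃ i0, ∀ᶠ n in U, (rv ((Y n).adjugate j0) ᵥ* L.adjugate) i0 ≠ 0 ∧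
      ∀ i, (rv ((Y n).adjugate j0) ᵥ* L.adjugate) i ≠ 0 → c i ≤ c i0 := by
    refine Ultrafilter.eventually_exists_iff.1 ?_
    filter_upwards [hY] with n hn
    obtain ⟨i, hi⟩ : ∃ i, (L * rm (Y n)).adjugate j0 i ≠ 0 := by
      by_contra h1
      push Not at h1
      have h2 := congrFun (congrFun (adjugate_mul (L * rm (Y n))) j0) j0
      rw [mul_apply, det_mul, rm_det] at h2
      simp [h1, hL, hn.1] at h2
    obtain ⟨i0, a1, a2⟩ := (Finset.univ.filter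
      fun i => (L * rm (Y n)).adjugate j0 i ≠ 0).exists_max_image c ⟨i, by simpa using hi⟩
    rw [adj_row]
    exact ⟨i0, by simpa using a1, fun i hi => a2 i (by simpa using hi)⟩
  rcases lt_or_ge (c i0) 0 with hA | hB
  · obtain ⟨n0, a1, a2⟩ := (hY.and h0).exists
    refine Or.inl ⟨(Y n0).adjugate j0, fun e => ?_, ?_⟩
    · obtain ⟨i, hi⟩ := ht_ne a1.1 j0
      exact hi (congrFun e i)
    filter_upwards [hY, hN0, ev_le_exp hN
      ((∑ i, |(rv ((Y n0).adjugate j0) ᵥ* L.adjugate) i|) / |L.det| + 1) (neg_pos.2 hA)]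
      with n b1 b2 b3 j hj
    by_contra hne
    have := ht_one hL b2 a2.2 (b1.2 j hj) hne
    linarith
  right
  by_contra hcon
  obtain ⟨C, e, hC, hLV⟩ := liou hA.adj
  have hD : (0 : ℝ) < Fintype.card ι := by exact_mod_cast Fintype.card_pos_iff.2 ⟨j0⟩
  obtain ⟨γ, hγe⟩ : ∃ γ, γ = -∑ i, c i := ⟨_, rfl⟩
  have hγ0 : 0 < γ := hγe ▸ neg_pos.2 hc
  obtain ⟨θ, hθ, hθe⟩ : ∃ θ : ℝ, 0 < θ ∧ (e + 1) * (Fintype.card ι * θ) = γ / 2 :=
    ⟨γ / 2 / ((e + 1) * Fintype.card ι), by positivity, by field_simp⟩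
  have h2 : ∀ i1 i2, ∀ᶠ n in U, (Y n).adjugate j0 i1 ≠ 0 →
      ((((Y n).adjugate j0 i2 : ℚ) / (Y n).adjugate j0 i1).den : ℝ) ≤ Real.exp (θ * N n) := by
    intro i1 i2
    by_cases e : i1 = i2
    · filter_upwards [hN0] with n hn hw
      rw [e] at hw ⊢
      rw [div_self (by exact_mod_cast hw)]
      simpa using mul_nonneg hθ.le hn
    · filter_upwards [Ultrafilter.eventually_not.2 fun h => hcon ⟨θ, i1, i2, hθ, e, h⟩]
        with n hn hw
      exact (Real.log_le_iff_le_exp (by exact_mod_cast Rat.den_pos _)).1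
        (not_le.1 fun h => hn ⟨hw, h⟩).le
  obtain ⟨n, b1, b2, b3, b5, b6⟩ := (hY.and (hN0.and (h0.and
    ((eventually_all.2 fun i1 => eventually_all.2 (h2 i1)).and (ev_le_exp hN
      (C * (Fintype.card ι).factorial + 1) (half_pos hγ0)))))).exists
  obtain ⟨i1, -, hmax⟩ := Finset.univ.exists_max_image (fun i => |(Y n).adjugate j0 i|)
    ⟨j0, Finset.mem_univ _⟩
  have hw : (Y n).adjugate j0 i1 ≠ 0 := by
    obtain ⟨i, hi⟩ := ht_ne b1.1 j0
    exact abs_pos.1 ((abs_pos.2 hi).trans_le (hmax i (Finset.mem_univ _)))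
  obtain ⟨Δ, w', d1, d2, d3, d4⟩ := ht_scale _ i1 hw (fun i => hmax i (Finset.mem_univ _))
    fun i => b5 i1 i hw
  have d0 : (1 : ℝ) ≤ Δ := by exact_mod_cast d1
  have d5 : (Δ : ℝ) * (rv ((Y n).adjugate j0) ᵥ* L.adjugate) i0 =
      (Y n).adjugate j0 i1 * (rv w' ᵥ* L.adjugate) i0 := by
    have h3 : (Δ : ℝ) • rv ((Y n).adjugate j0) = ((Y n).adjugate j0 i1 : ℝ) • rv w' :=
      funext fun i => by
        have := congrArg (Int.cast : ℤ → ℝ) (congrFun d4 i)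
        simpa [rv] using this
    have := congrFun (congrArg (· ᵥ* L.adjugate) h3) i0
    simpa only [smul_vecMul, Pi.smul_apply, smul_eq_mul] using this
  have d6 := hLV w' Δ d0 (fun i => by exact_mod_cast d3 i) i0
    (right_ne_zero_of_mul (d5 ▸ mul_ne_zero (by linarith) b3.1))
  have d7 : |(rv w' ᵥ* L.adjugate) i0| ≤
      Δ * ((Fintype.card ι).factorial * Real.exp ((∑ i, c i - c i0) * N n)) := by
    have h3 : (1 : ℝ) ≤ |((Y n).adjugate j0 i1 : ℝ)| := by exact_mod_cast Int.one_le_abs hw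
    refine (le_mul_of_one_le_left (abs_nonneg _) h3).trans ?_
    rw [← abs_mul, ← d5, abs_mul, abs_of_pos (by linarith), adj_row]
    exact mul_le_mul_of_nonneg_left (adj_abs _ _ _ _ _ fun j hj i => b1.2 j hj i) (by linarith)
  have d8 : (1 : ℝ) ≤ (C * (Fintype.card ι).factorial) *
      ((Real.exp (θ * N n) ^ Fintype.card ι) ^ (e + 1) *
        Real.exp ((∑ i, c i - c i0) * N n)) := by
    refine (d6.trans (mul_le_mul_of_nonneg_left d7 (by positivity))).trans ?_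
    calc _ = (C * (Fintype.card ι).factorial) *
          ((Δ : ℝ) ^ (e + 1) * Real.exp ((∑ i, c i - c i0) * N n)) := by ring
      _ ≤ _ := by gcongr
  rw [← Real.exp_nat_mul, ← Real.exp_nat_mul, ← Real.exp_add] at d8
  refine absurd d8 (not_le.2 ((mul_lt_mul_of_pos_right ((lt_add_one _).trans_le b6)
    (Real.exp_pos _)).trans_le ?_))
  rw [← Real.exp_add, Real.exp_le_one_iff]
  have h4 := mul_le_mul_of_nonneg_right hB b2
  have h5 := congrArg (· * N n) hθe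
  have h6 := congrArg (· * N n) hγe
  push_cast
  linarith

end Pool.Agent.P.MP_fea266_nt
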