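import Pool.Agent.P.MP_fea266_nt.AuxP
import Pool.Agent.P.MP_fea266_nt.Ht
import Pool.Agent.P.MP_fc15d7_nt.Subspace

/-! The subspace theorem for hyperplanes spanned by points of the box. -/

set_option autoImplicit false

open Matrix Filter

namespace Pool.Agent.P.MP_fea266_nt

open Pool.Agent.P.MP_fc15d7_nt

theorem hyp {ι : Type} [Fintype ι] [DecidableEq ι] {L : Matrix ι ι ℝ} (hAl : Alg L)
    (hL : L.det ≠ 0) {c : ι → ℝ} (hc : ∑ i, c i < 0) (U : Ultrafilter ℕ) {N : ℕ → ℝ}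
    (Y : ℕ → Matrix ι ι ℤ) (j0 : ι) (hN : Tendsto N U atTop)
    (hY : ∀ᶠ n in U, (Y n).det ≠ 0 ∧ ∀ j, j ≠ j0 → Box L c (N n) fun i => Y n i j) :
    ∃ w : ι → ℤ, w ≠ 0 ∧ ∀ᶠ n in U, ∀ j, j ≠ j0 → ∑ i, w i * Y n i j = 0 := by
  refine (ht hAl hL hc U Y j0 hN hY).resolve_right ?_
  rintro ⟨θ, i1, i2, hθ, hi, hw⟩
  have : Nonempty ι := ⟨j0⟩
  obtain ⟨γ, hγ⟩ : ∃ γ, γ = -∑ i, c i := ⟨_, rfl⟩
  have γ0 : 0 < γ := by linarith
  have D0 : (0 : ℝ) < Fintype.card ι := by exact_mod_cast Fintype.card_pos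
  set D : ℝ := (Fintype.card ι : ℝ) with hD
  obtain ⟨m0, K, K1, hA⟩ := aux hAl.adj c (η := γ / (16 * D)) (by positivity)
  obtain ⟨b, b0, hb⟩ : ∃ b : ℝ, 0 < b ∧ ∀ N : ℝ, 1 ≤ N → ∀ i,
      |L i i1| ≤ Real.exp (c i * N + b * N) := by
    refine ⟨1 + ∑ i, (|L i i1| + |c i|), by positivity, fun N hN i => ?_⟩
    have h2 : |L i i1| + |c i| ≤ ∑ i, (|L i i1| + |c i|) :=
      Finset.single_le_sum (f := fun i => |L i i1| + |c i|) (fun i _ => by positivity)
        (Finset.mem_univ i)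
    refine le_trans ?_ (Real.add_one_le_exp _)
    nlinarith [neg_abs_le (c i), abs_nonneg (L i i1)]
  obtain ⟨lam, ρ, w0, lam0, hR⟩ := t_ROTH t_ELIM (m0 + 1) (γ / (8 * D * b)) (θ / 2)
    (by positivity) (by positivity)
  set K2 := (D / |L.det| + 1) * K with hK2
  have hKK : K ≤ K2 := le_mul_of_one_le_left (by linarith) (le_add_of_nonneg_left (by positivity))
  obtain ⟨W1, hW1⟩ := exists_nat_ge ((m0 + 1 : ℕ) * Real.log K2 / min lam (γ / (16 * D)))
  have hW : (m0 + 1 : ℕ) * Real.log K2 ≤ min lam (γ / (16 * D)) * (W1 + w0 + 1 : ℕ) := by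
    have h1 : 0 < min lam (γ / (16 * D)) := by positivity
    rw [div_le_iff₀' h1] at hW1
    refine hW1.trans ?_
    gcongr
    omega
  obtain ⟨n, hn, hρ⟩ := hyp_seq hN (hY.and (hw.and (hN.eventually_ge_atTop 1))) ρ (W1 + w0 + 1)
  let wt : Fin (m0 + 1) → ℕ := fun h => ⌈N (n h)⌉₊
  obtain ⟨Z, hZ⟩ : ∃ Z, Z = ∑ h, wt h := ⟨_, rfl⟩
  have w1 : ∀ h, wt h ≤ Z := fun h =>
    hZ ▸ Finset.single_le_sum (f := wt) (fun _ _ => Nat.zero_le _) (Finset.mem_univ h)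
  have w2 : ∀ h, W1 + w0 + 1 ≤ wt h := fun h => (hn h).2
  have w3 : ∀ h : Fin (m0 + 1), N (n h) ≤ wt h := fun h => Nat.le_ceil _
  have N1 : ∀ h : Fin (m0 + 1), 1 ≤ N (n h) := fun h => (hn h).1.2.2
  have w4 : ∀ h : Fin (m0 + 1), wt h ≤ 2 * N (n h) := fun h => by
    have := Nat.ceil_lt_add_one (zero_le_one.trans (N1 h))
    linarith [N1 h]
  have Z1 : 1 ≤ Z := by have := w1 0; have := w2 0; omega
  have Z0 : (0 : ℝ) < Z := by exact_mod_cast Z1
  let d : Fin (m0 + 1) → ℕ := fun h => Z / wt h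
  have d0 : ∀ h, 1 ≤ d h := fun h =>
    (Nat.le_div_iff_mul_le (by have := w2 h; omega)).2 (by simpa using w1 h)
  have d1 : ∀ h, wt h * d h ≤ Z := fun h => Nat.mul_div_le _ _
  have d2 : ∀ h : Fin (m0 + 1), N (n h) * d h ≤ Z := fun h =>
    (mul_le_mul_of_nonneg_right (w3 h) (Nat.cast_nonneg _)).trans (by exact_mod_cast d1 h)
  have d3 : ∀ h : Fin (m0 + 1), (Z : ℝ) / 4 ≤ N (n h) * d h := fun h => by
    have h1 : 0 < wt h := by have := w2 h; omega
    have h2 : Z < wt h * (d h + 1) := Nat.lt_mul_div_succ _ h1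
    have h3 : 1 ≤ d h := d0 h
    have h4 : Z ≤ 2 * (wt h * d h) := by nlinarith
    have h5 : (Z : ℝ) ≤ 2 * (wt h * d h) := by exact_mod_cast h4
    nlinarith [mul_le_mul_of_nonneg_right (w4 h) (Nat.cast_nonneg (d h))]
  have d4 : K2 ^ ∑ h, d h ≤ Real.exp (min lam (γ / (16 * D)) * Z) :=
    hyp_pow (K1.trans hKK) (Nat.succ_pos _) hW (by
      rw [Finset.mul_sum]
      refine (Finset.sum_le_card_nsmul _ _ Z fun h _ =>
        (Nat.mul_le_mul_right _ (w2 h)).trans (d1 h)).trans_eq ?_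
      simp)
  obtain ⟨P, P0, PH, P1, P2⟩ := hA (m0 + 1) (Nat.le_succ _) (fun h => N (n h)) d Z Z0
    (fun h => zero_le_one.trans (N1 h)) d2
    ((d0 0).trans (Finset.single_le_sum (f := d) (fun _ _ => Nat.zero_le _) (Finset.mem_univ 0)))
  obtain ⟨S, hS'⟩ : ∃ S, S = ∑ h : Fin (m0 + 1), N (n h) * d h := ⟨_, rfl⟩
  have S1 : (m0 + 1 : ℕ) * (Z / 4 : ℝ) ≤ S := by
    rw [hS']
    refine le_trans (le_of_eq ?_) (Finset.sum_le_sum fun h _ => d3 h)
    simp
  rw [← hS'] at P2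
  obtain ⟨E, hE⟩ : ∃ E, E = γ / (16 * D) * (m0 + 1 : ℕ) * Z := ⟨_, rfl⟩
  rw [← hE] at P2
  have hV := van hL c (fun h => N (n h)) (fun h => b * N (n h)) d
    (fun h => (Y (n h)).updateCol j0 (Pi.single i1 1)) j0 P _ _ PH
    (fun h i j hj => by
      rw [mul_rm]
      simp only [updateCol_ne hj]
      exact (hn h).1.1.2 j hj i)
    (fun h i => by
      have : (L * rm ((Y (n h)).updateCol j0 (Pi.single i1 1))) i j0 = L i i1 := by
        simp [mul_apply, rm, Pi.single_apply]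
      rw [this]
      exact hb _ (N1 h) i) P2.1 P2.2
  obtain ⟨F, F0, F1, F2, F3⟩ := t_KRON ι (m0 + 1) _ i1 i2 wt d ⌈γ / (8 * D * b) * Z⌉₊ P hi
    (fun h => (hn h).1.2.1.1) P0 PH (t_ORDH ι _ (fun h => Y (n h)) (fun _ => 1) j0 i1 wt _ P
      (fun h => (hn h).1.1.1) (fun h => one_ne_zero) fun J hJ => by
      have h1 := (hV J hJ).trans (mul_le_mul_of_nonneg_right (le_trans (b := K2 ^ ∑ h, d h) (by
        rw [← mul_pow, hK2]
        gcongr
        linarith) d4) (Real.exp_pos _).le)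
      rw [← Real.exp_add, Real.one_le_exp_iff] at h1
      have h2 : ∑ h : Fin (m0 + 1), b * N (n h) * J (h, j0) ≤ b * (∑ h, wt h * J (h, j0) : ℕ) := by
        push_cast
        rw [Finset.mul_sum]
        refine Finset.sum_le_sum fun h _ => ?_
        rw [mul_assoc]
        gcongr
        exact w3 h
      have h3 : E = γ / D * ((m0 + 1 : ℕ) * Z / 16) := by
        rw [hE]
        field_simp
      have h4 : min lam (γ / (16 * D)) * Z ≤ γ / D * (Z / 16) :=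
        (mul_le_mul_of_nonneg_right (min_le_right _ _) Z0.le).trans_eq (by ring)
      have h5 : -((∑ i, c i) / D * S) = γ / D * S := by rw [hγ]; ring
      have h6 : γ / D * (Z / 8) ≤ γ / D * (S - (m0 + 1 : ℕ) * Z / 16 - Z / 16) := by
        refine mul_le_mul_of_nonneg_left ?_ (by positivity)
        push_cast at S1 ⊢
        nlinarith [mul_nonneg (Nat.cast_nonneg (α := ℝ) m0) Z0.le]
      rw [Nat.ceil_le, show γ / (8 * D * b) * Z = γ / D * (Z / 8) / b by field_simp,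
        div_le_iff₀' b0]
      linarith)
  refine hR _ wt Z _ F (fun h => by have := w2 h; omega) (fun h h' hh => hρ h h' hh)
    (fun h => ?_) w1 Z1 F0 (fun h => (Nat.mul_le_mul_left _ (F1 h)).trans (d1 h)) ?_
    (Nat.le_ceil _) F3
  · rw [Rat.neg_den]
    nlinarith [(hn h).1.2.1.2, w4 h]
  · refine (F2.trans P1).trans (le_trans (by gcongr) (d4.trans ?_))
    gcongr
    exact min_le_left _ _

end Pool.Agent.P.MP_fea266_nt
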