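import Pool.Agent.P.MP_fea266_nt.Dual

/-! The lower bound by the box principle. -/

set_option autoImplicit false

open Module Matrix Filter
open scoped RealInnerProductSpace

namespace Pool.Agent.P.MP_fea266_nt

theorem boxes (γ : Fin 7 → ℝ) : ∃ C : ℝ, 0 < C ∧ ∀ Q : ℕ, 1 ≤ Q → ∃ x : Fin 7 → ℤ, x ≠ 0 ∧
    (∀ i, |(x i : ℝ)| ≤ Q) ∧ |∑ i, x i * γ i| ≤ C / Q ^ 6 := by
  have h0 : 0 ≤ ∑ i, |γ i| := Finset.sum_nonneg fun _ _ => abs_nonneg _
  generalize hM : ∑ i, |γ i| = M at h0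
  refine ⟨2 * (M + 1), by positivity, fun Q hQ => ?_⟩
  have h1 : (1 : ℝ) ≤ Q := by exact_mod_cast hQ
  have h2 : 0 < 2 * (M + 1) / Q ^ 6 := by positivity
  obtain ⟨y, hy, z, hz, h3, h4⟩ := Finset.exists_ne_map_eq_of_card_lt_of_maps_to
    (s := Fintype.piFinset fun _ : Fin 7 => Finset.Icc (0 : ℤ) Q) (t := Finset.Icc (0 : ℤ) (Q ^ 7))
    (f := fun y => ⌊(∑ i, y i * γ i + M * Q) / (2 * (M + 1) / Q ^ 6)⌋) (by
      rw [Fintype.card_piFinset_const, Int.card_Icc, Int.card_Icc]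
      norm_cast
      simp only [Int.subNatNat_eq_coe, Nat.cast_zero, sub_zero, Int.toNat_natCast]
      have : (Q + 1) ^ 7 = Q ^ 7 + 1 +
        Q * (7 * Q ^ 5 + 21 * Q ^ 4 + 35 * Q ^ 3 + 35 * Q ^ 2 + 21 * Q + 7) := by ring
      rw [this]
      exact lt_add_of_pos_right _ (by positivity)) (fun y hy => by
      have e1 : |∑ i, y i * γ i| ≤ M * Q := by
        rw [← hM, Finset.sum_mul]
        refine (Finset.abs_sum_le_sum_abs _ _).trans (Finset.sum_le_sum fun i _ => ?_)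
        have := Finset.mem_Icc.1 (Fintype.mem_piFinset.1 hy i)
        rw [abs_mul, mul_comm, abs_of_nonneg (a := (y i : ℝ)) (by exact_mod_cast this.1)]
        exact mul_le_mul_of_nonneg_left (by exact_mod_cast this.2) (abs_nonneg _)
      obtain ⟨e2, e3⟩ := abs_le.1 e1
      refine Finset.mem_coe.2 (Finset.mem_Icc.2 ⟨Int.floor_nonneg.2 (div_nonneg (by linarith) h2.le),
        Int.floor_le_iff.2 ?_⟩)
      rw [div_lt_iff₀ h2]
      push_cast
      have : (Q : ℝ) ^ 7 * (2 * (M + 1) / Q ^ 6) = 2 * (M + 1) * Q := by field_simp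
      nlinarith)
  refine ⟨y - z, sub_ne_zero.2 h3, fun i => ?_, ?_⟩
  · have e1 := Finset.mem_Icc.1 (Fintype.mem_piFinset.1 hy i)
    have e2 := Finset.mem_Icc.1 (Fintype.mem_piFinset.1 hz i)
    have : |y i - z i| ≤ Q := abs_le.2 ⟨by omega, by omega⟩
    exact_mod_cast this
  · have := Int.abs_sub_lt_one_of_floor_eq_floor h4
    rw [← sub_div, abs_div, abs_of_pos h2, div_lt_one h2, add_sub_add_right_eq_sub,
      ← Finset.sum_sub_distrib] at this
    simpa [sub_mul] using this.le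

/-- the plane through the first basis vector and `(0, x)` -/
def pv (x : Fin 7 → ℤ) : Fin 2 → Fin 8 → ℤ := ![Pi.single 0 1, Fin.cons 0 x]

theorem pv_det (x : Fin 7 → ℤ) : (gram ℝ fun k => iv (pv x k)).det = ‖iv (pv x 1)‖ ^ 2 := by
  rw [det_fin_two, ← real_inner_self_eq_norm_sq]
  simp only [gram_apply, inner_iv]
  simp [pv, Fin.sum_univ_succ]

theorem pv_norm (x : Fin 7 → ℤ) : ‖iv (pv x 1)‖ ^ 2 = ∑ i, (x i : ℝ) ^ 2 := by
  rw [← real_inner_self_eq_norm_sq, inner_iv, Fin.sum_univ_succ]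
  simp [pv, sq]

theorem pv_one {x : Fin 7 → ℤ} (h : x ≠ 0) : 1 ≤ ‖iv (pv x 1)‖ := by
  obtain ⟨i, hi⟩ := Function.ne_iff.1 h
  rw [← one_le_sq_iff₀ (norm_nonneg _), pv_norm]
  refine le_trans ?_ (Finset.single_le_sum (fun _ _ => sq_nonneg _) (Finset.mem_univ i))
  exact_mod_cast (one_le_sq_iff_one_le_abs _).2 (Int.one_le_abs hi)

theorem pv_rat {x : Fin 7 → ℤ} (h : x ≠ 0) :
    IsRat 2 (Submodule.span ℝ (Set.range fun k => iv (pv x k))) :=
  ⟨(finrank_span_eq_card (linearIndependent_of_det_gram_ne_zero (𝕜 := ℝ) (by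
    rw [pv_det]
    exact (pow_pos (one_pos.trans_le (pv_one h)) 2).ne'))).trans (by simp), _, rfl⟩

theorem low_inf {A : Submodule ℝ (E 8)} (hA : Irr 6 2 A) {β : ℝ} (h1 : 1 ≤ β) (h7 : β < 7) :
    {B | IsRat 2 B ∧ psi1 A B ≤ height 2 B ^ (-β)}.Infinite := by
  have hA0 : A ≠ ⊥ := ne_bot_of (by rw [hA.1]; norm_num)
  have h2 : iv (Pi.single 0 1) ∉ A := fun h => by
    have := (Submodule.eq_bot_iff _).1 (hA.inf (pv_rat (x := 1) one_ne_zero)) _
      ⟨h, Submodule.subset_span ⟨0, rfl⟩⟩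
    simpa [iv] using congrArg (fun v : E 8 => v 0) this
  have h3 := Submodule.finrank_lt_finrank_of_lt (s := A) (t := A ⊔ ℝ ∙ iv (Pi.single 0 1))
    (left_lt_sup.2 fun h => h2 ((Submodule.span_singleton_le_iff_mem _ _).1 h))
  have h4 := finrank_orth (A ⊔ ℝ ∙ iv (Pi.single 0 1))
  obtain ⟨c, hc⟩ := finrank_le_one_iff.1 (show finrank ℝ (A ⊔ ℝ ∙ iv (Pi.single 0 1))ᗮ ≤ 1 by
    have := hA.1; omega)
  have h5 : ∀ i : Fin 7, ∃ a ∈ A, ∃ t γ : ℝ,
      iv (Pi.single i.succ 1) = a + t • iv (Pi.single 0 1) + γ • (c : E 8) := fun i => by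
    obtain ⟨y, hy, z, hz, e⟩ := (A ⊔ ℝ ∙ iv (Pi.single 0 1)).exists_add_mem_mem_orthogonal
      (iv (Pi.single i.succ 1))
    obtain ⟨a, ha, w, hw, rfl⟩ := Submodule.mem_sup.1 hy
    obtain ⟨t, rfl⟩ := Submodule.mem_span_singleton.1 hw
    obtain ⟨γ, e'⟩ := hc ⟨z, hz⟩
    exact ⟨a, ha, t, γ, by rw [e, ← Submodule.coe_smul, e']⟩
  choose a ha t γ h5 using h5
  obtain ⟨C, hC, h6⟩ := boxes γ
  intro hS
  have e1 : Tendsto (fun Q : ℕ => C / (Q : ℝ) ^ 6 * ‖(c : E 8)‖) atTop (nhds 0) := by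
    simpa using (tendsto_const_nhds.div_atTop ((tendsto_pow_atTop (by norm_num)).comp
      tendsto_natCast_atTop_atTop)).mul_const ‖(c : E 8)‖
  obtain ⟨Q, e2, e3, e4⟩ := ((eventually_ge_atTop 1).and (((eventually_all_finite hS).2
    fun B hB => e1.eventually (gt_mem_nhds (psi_pos hA0 (ne_bot_of (by rw [hB.1.1]; norm_num))
      (hA.inf hB.1)))).and (((tendsto_rpow_atTop (sub_pos.2 h7)).comp
        tendsto_natCast_atTop_atTop).eventually_ge_atTop
          (C * ‖(c : E 8)‖ * 3 ^ (β - 1))))).exists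
  obtain ⟨x, e5, e6, e7⟩ := h6 Q e2
  have hQ : (0 : ℝ) < Q := by exact_mod_cast e2
  have e8 := pv_one e5
  have e9 : ‖iv (pv x 1)‖ ≤ 3 * Q := by
    refine le_of_sq_le_sq ?_ (by positivity)
    rw [pv_norm]
    refine (Finset.sum_le_card_nsmul _ _ _ fun i _ => sq_le_sq' (abs_le.1 (e6 i)).1
      (abs_le.1 (e6 i)).2).trans ?_
    simp only [Finset.card_univ, Fintype.card_fin, nsmul_eq_mul]
    push_cast
    nlinarith
  have e10 : iv (pv x 1) = ∑ i, (x i : ℝ) • iv (Pi.single i.succ 1) := by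
    ext j
    refine Fin.cases ?_ (fun j => ?_) j <;> simp [iv, pv, Pi.single_apply, (Fin.succ_ne_zero _).symm]
  have e11 := psi_le (B := Submodule.span ℝ (Set.range fun k => iv (pv x k))) hA0
    (A.sum_mem fun i (_ : i ∈ Finset.univ) => A.smul_mem (x i : ℝ) (ha i))
    (Submodule.sub_mem _ (Submodule.subset_span ⟨1, rfl⟩) (Submodule.smul_mem _
      (∑ i, x i * t i) (Submodule.subset_span ⟨0, rfl⟩)))
  have e12 : iv (pv x 1) - (∑ i, x i * t i) • iv (pv x 0) - ∑ i, (x i : ℝ) • a i =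
      (∑ i, x i * γ i) • (c : E 8) := by
    simp only [e10, h5, smul_add, smul_smul, Finset.sum_add_distrib, Finset.sum_smul]
    rw [show pv x 0 = Pi.single 0 1 from rfl]
    abel
  have e13 : ‖iv (pv x 1)‖ ≤ ‖iv (pv x 1) - (∑ i, x i * t i) • iv (pv x 0)‖ := by
    refine le_of_sq_le_sq ?_ (norm_nonneg _)
    rw [norm_sub_sq_real, inner_smul_right, inner_iv]
    simp [pv, Fin.sum_univ_succ]
  rw [e12, norm_smul, Real.norm_eq_abs] at e11
  have e14 := (mul_le_mul_of_nonneg_left e13 (psi_nonneg _ _)).trans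
    (e11.trans (mul_le_mul_of_nonneg_right e7 (norm_nonneg _)))
  refine (e3 _ ⟨pv_rat e5, ?_⟩).not_ge
    ((le_mul_of_one_le_right (psi_nonneg _ _) e8).trans e14)
  have e15 : height 2 (Submodule.span ℝ (Set.range fun k => iv (pv x k))) ≤ ‖iv (pv x 1)‖ :=
    (height_le rfl).trans_eq (by rw [vol, pv_det, Real.sqrt_sq (norm_nonneg _)])
  refine le_trans ?_ (Real.rpow_le_rpow_of_nonpos (one_pos.trans_le (one_le_height (pv_rat e5)))
    e15 (by linarith))
  refine le_of_mul_le_mul_right (e14.trans ?_) (one_pos.trans_le e8)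
  rw [← Real.rpow_add_one (one_pos.trans_le e8).ne']
  refine le_trans ?_ (Real.rpow_le_rpow_of_nonpos (one_pos.trans_le e8) e9 (by linarith))
  rw [Real.mul_rpow (by norm_num) hQ.le, div_mul_eq_mul_div, div_le_iff₀ (by positivity), mul_assoc,
    ← Real.rpow_add_natCast hQ.ne', show -β + 1 = -(β - 1) by ring, Real.rpow_neg (by norm_num),
    le_inv_mul_iff₀ (by positivity), mul_comm, show -(β - 1) + ((6 : ℕ) : ℝ) = 7 - β by
      push_cast; ring]
  exact e4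

theorem low : 7 ≤ mu 8 6 2 := by
  refine le_iInf₂ fun A hA => le_of_not_gt fun h => ?_
  obtain ⟨x, h1, h2⟩ := EReal.lt_iff_exists_real_btwn.1 h
  refine h1.not_ge (le_iSup₂_of_le (max x 1) (And.intro (by positivity) (low_inf hA (le_max_right _ _)
    (max_lt (EReal.coe_lt_coe_iff.1 h2) (by norm_num)))) (EReal.coe_le_coe_iff.2 (le_max_left _ _)))

end Pool.Agent.P.MP_fea266_nt
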