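import Pool.Agent.P.MP_fea266_nt.RBasic

/-! Rings generated by finitely many real algebraic integers; Liouville's inequality. -/

set_option autoImplicit false

open Matrix

namespace Pool.Agent.P.MP_fea266_nt

open Pool.Agent.P.MP_fc15d7_nt

open scoped Matrix.Norms.Operator in
theorem pack {α : Type} [Fintype α] (g : α → ℝ) (hg : ∀ a, IsIntegral ℤ (g a)) :
    ∃ (S : Subalgebra ℤ ℝ) (s : ℕ) (co : Fin s → S →ₗ[ℤ] ℤ) (ν : S → ℝ) (C : ℝ),
      (∀ a, g a ∈ S) ∧ SN ν ∧ 1 ≤ C ∧ (∀ z, (∀ i, co i z = 0) → z = 0) ∧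
      (∀ z i, |(co i z : ℝ)| ≤ C * ν z) ∧
      ∀ (z : S) (M : ℝ), z ≠ 0 → 1 ≤ M → ν z ≤ M → 1 ≤ C * M ^ s * |(z : ℝ)| := by
  classical
  let S := Algebra.adjoin ℤ (Set.range g)
  have : Module.Finite ℤ S := Algebra.finite_adjoin_of_finite_of_isIntegral (Set.finite_range g)
    (by rintro _ ⟨a, rfl⟩; exact hg a)
  obtain ⟨s, ⟨b⟩⟩ : ∃ s : ℕ, Nonempty (Module.Basis (Fin s) ℤ S) := ⟨_, ⟨Module.finBasis ℤ S⟩⟩
  obtain ⟨j0⟩ : Nonempty (Fin s) := b.index_nonempty
  have : Nonempty (Fin s) := ⟨j0⟩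
  let φ : S →+* Matrix (Fin s) (Fin s) ℝ :=
    (Int.castRingHom ℝ).mapMatrix.comp (Algebra.leftMulMatrix b).toRingHom
  have hφ : ∀ z i j, φ z i j = (b.repr (z * b j) i : ℝ) := fun z i j => by
    simp [φ, Algebra.leftMulMatrix_eq_repr_mul]
  let v : Fin s → ℝ := fun j => (b j : ℝ)
  let u : Fin s → ℝ := fun j => (b.repr 1 j : ℝ)
  have hv : 0 < |v j0| := abs_pos.2 fun h => b.ne_zero j0 (Subtype.ext h)
  have h1 : 0 ≤ (∑ i, |v i|) * s.factorial / |v j0| := by positivity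
  refine ⟨S, s, fun i => b.coord i, fun z => ‖φ z‖, 1 + ‖u‖ + (∑ i, |v i|) * s.factorial / |v j0|,
    fun a => Algebra.subset_adjoin ⟨a, rfl⟩, ⟨fun _ => norm_nonneg _, by simp, by simp,
      fun x => by simp, fun x y => by rw [map_add]; exact norm_add_le _ _,
      fun x y => by rw [map_mul]; exact norm_mul_le _ _⟩, by linarith [norm_nonneg u],
    fun z hz => b.ext_elem fun i => by simpa using hz i, fun z i => ?_, fun z M hz hM h2 => ?_⟩
  · have h3 : (φ z *ᵥ u) i = (b.coord i z : ℝ) := by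
      have := congrFun (Algebra.leftMulMatrix_mulVec_repr b z 1) i
      rw [mul_one] at this
      simp [φ, u, ← this, mulVec, dotProduct]
    have h4 := (norm_le_pi_norm (φ z *ᵥ u) i).trans (linfty_opNorm_mulVec (φ z) u)
    rw [h3, Real.norm_eq_abs] at h4
    nlinarith [norm_nonneg (φ z)]
  · have h3 : ∀ i j, |φ z i j| ≤ M := fun i j => by
      have h4 := (norm_le_pi_norm (φ z *ᵥ Pi.single j 1) i).trans
        (linfty_opNorm_mulVec (φ z) (Pi.single j 1))
      rw [Pi.norm_single, norm_one, mul_one] at h4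
      simpa using h4.trans h2
    have h4 : v ᵥ* φ z = (z : ℝ) • v := funext fun j => by
      have := congrArg (fun x : S => (x : ℝ)) (b.sum_repr (z * b j))
      simp only [AddSubmonoidClass.coe_finsetSum, zsmul_eq_mul, MulMemClass.coe_mul,
        SubringClass.coe_intCast] at this
      simp only [vecMul, dotProduct, hφ, Pi.smul_apply, smul_eq_mul, v, ← this, mul_comm]
    have h5 : (φ z).det * v j0 = z * (v ᵥ* (φ z).adjugate) j0 := by
      have := congrFun (congrArg (· ᵥ* (φ z).adjugate) h4) j0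
      simpa only [vecMul_vecMul, mul_adjugate, vecMul_smul, vecMul_one, smul_vecMul,
        Pi.smul_apply, smul_eq_mul] using this
    have h6 : 1 ≤ |(φ z).det| := by
      have : (φ z).det = (Algebra.norm ℤ z : ℤ) := by
        rw [Algebra.norm_eq_matrix_det b, Int.cast_det]; rfl
      rw [this]
      exact_mod_cast Int.one_le_abs (Algebra.norm_ne_zero_iff.2 hz)
    have h7 : ∀ i, |(φ z).adjugate i j0| ≤ s.factorial * M ^ s := fun i => by
      rw [adjugate_apply]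
      refine (abs_det_le _ (M := M ^ s) fun σ => ?_).trans_eq (by rw [Fintype.card_fin])
      refine (Finset.prod_le_prod (fun _ _ => abs_nonneg _) (g := fun _ => M)
        fun j _ => ?_).trans_eq (by simp)
      rw [updateRow_apply]
      split_ifs
      · rw [Pi.single_apply]
        split_ifs <;> simp <;> linarith
      · exact h3 _ _
    have h8 : |(v ᵥ* (φ z).adjugate) j0| ≤ (∑ i, |v i|) * (s.factorial * M ^ s) := by
      rw [vecMul, dotProduct, Finset.sum_mul]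
      refine (Finset.abs_sum_le_sum_abs _ _).trans (Finset.sum_le_sum fun i _ => ?_)
      rw [abs_mul]
      exact mul_le_mul_of_nonneg_left (h7 i) (abs_nonneg _)
    have h9 : |v j0| ≤ |(z : ℝ)| * ((∑ i, |v i|) * (s.factorial * M ^ s)) := by
      calc |v j0| ≤ |(φ z).det| * |v j0| := le_mul_of_one_le_left hv.le h6
        _ = |(z : ℝ)| * |(v ᵥ* (φ z).adjugate) j0| := by rw [← abs_mul, h5, abs_mul]
        _ ≤ _ := mul_le_mul_of_nonneg_left h8 (abs_nonneg _)
    calc (1 : ℝ) ≤ (∑ i, |v i|) * s.factorial / |v j0| * M ^ s * |(z : ℝ)| := by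
          rw [div_mul_eq_mul_div, div_mul_eq_mul_div, le_div_iff₀ hv]
          linarith
      _ ≤ _ := by
          gcongr
          linarith [norm_nonneg u]

variable {ι : Type} [Fintype ι]

/-- all entries are algebraic integers -/
def Alg (B : Matrix ι ι ℝ) : Prop := ∀ i j, IsIntegral ℤ (B i j)

/-- the real vector of an integer vector -/
def rv {ι : Type} (x : ι → ℤ) : ι → ℝ := fun i => x i

/-- the real matrix of an integer matrix -/
def rm {ι : Type} (A : Matrix ι ι ℤ) : Matrix ι ι ℝ := A.map (Int.castRingHom ℝ)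

theorem Alg.adj [DecidableEq ι] {B : Matrix ι ι ℝ} (h : Alg B) : Alg B.adjugate := fun i j => by
  rw [adjugate_apply]
  refine IsIntegral.det fun k l => ?_
  rw [updateRow_apply]
  split_ifs
  · rw [Pi.single_apply]
    split_ifs
    · exact isIntegral_one
    · exact isIntegral_zero
  · exact h _ _

theorem Alg.cmp {D : ℕ} (a : ℕ) {B : Matrix (Fin D) (Fin D) ℝ} (h : Alg B) : Alg (cmp a B) :=
  fun _ _ => IsIntegral.det fun _ _ => h _ _

theorem liou {B : Matrix ι ι ℝ} (h : Alg B) : ∃ (C : ℝ) (e : ℕ), 1 ≤ C ∧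
    ∀ (w : ι → ℤ) (Δ : ℝ), 1 ≤ Δ → (∀ i, |(w i : ℝ)| ≤ Δ) → ∀ i, (rv w ᵥ* B) i ≠ 0 →
      1 ≤ C * Δ ^ e * |(rv w ᵥ* B) i| := by
  obtain ⟨S, s, co, ν, C, h1, hν, h2, -, -, h3⟩ := pack (fun x : ι × ι => B x.1 x.2) fun x => h _ _
  have h4 : ∀ i, ∑ j, ν ⟨B j i, h1 (j, i)⟩ ≤ 1 + ∑ i, ∑ j, ν ⟨B j i, h1 (j, i)⟩ := fun i => by
    linarith [Finset.single_le_sum (f := fun i => ∑ j, ν ⟨B j i, h1 (j, i)⟩)
      (fun i _ => Finset.sum_nonneg fun j _ => hν.nn _) (Finset.mem_univ i)]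
  have h5 : 1 ≤ 1 + ∑ i, ∑ j, ν ⟨B j i, h1 (j, i)⟩ := le_add_of_nonneg_right
    (Finset.sum_nonneg fun i _ => Finset.sum_nonneg fun j _ => hν.nn _)
  generalize 1 + ∑ i, ∑ j, ν ⟨B j i, h1 (j, i)⟩ = K at h4 h5
  refine ⟨C * K ^ s, s, one_le_mul_of_one_le_of_one_le h2 (one_le_pow₀ h5),
    fun w Δ hΔ hw i hi => ?_⟩
  have e : ((∑ j, (w j : S) * ⟨B j i, h1 (j, i)⟩ : S) : ℝ) = (rv w ᵥ* B) i := by
    simp [vecMul, dotProduct, rv]
  have h6 := h3 (∑ j, (w j : S) * ⟨B j i, h1 (j, i)⟩) (Δ * K) (fun h0 => hi (by rw [← e, h0]; rfl))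
    (one_le_mul_of_one_le_of_one_le hΔ h5) (by
      refine (hν.sum _ _).trans (le_trans ?_ (mul_le_mul_of_nonneg_left (h4 i) (by linarith)))
      rw [Finset.mul_sum]
      exact Finset.sum_le_sum fun j _ => (hν.mul _ _).trans
        (mul_le_mul_of_nonneg_right ((hν.int _).trans (hw j)) (hν.nn _)))
  rw [e, mul_pow] at h6
  exact h6.trans_eq (by ring)

end Pool.Agent.P.MP_fea266_nt
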