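import Pool.Agent.P.MP_fc15d7_nt.Iface

/-! Weighted norms and linear substitutions for polynomials over a ring with a seminorm. -/

set_option autoImplicit false

open Matrix MvPolynomial Filter

namespace Pool.Agent.P.MP_fea266_nt

open Pool.Agent.P.MP_fc15d7_nt

/-- a submultiplicative seminorm -/
structure SN {R : Type} [CommRing R] (ν : R → ℝ) : Prop where
  nn : ∀ x, 0 ≤ ν x
  zero : ν 0 = 0
  one : ν 1 ≤ 1
  neg : ∀ x, ν (-x) ≤ ν x
  add : ∀ x y, ν (x + y) ≤ ν x + ν y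
  mul : ∀ x y, ν (x * y) ≤ ν x * ν y

theorem sn_abs : SN (fun x : ℝ => |x|) :=
  ⟨abs_nonneg, abs_zero, abs_one.le, fun x => (abs_neg x).le, abs_add_le, fun x y => (abs_mul x y).le⟩

variable {R : Type} [CommRing R] {ν : R → ℝ}

theorem SN.sum (h : SN ν) {ι : Type*} (s : Finset ι) (f : ι → R) :
    ν (∑ i ∈ s, f i) ≤ ∑ i ∈ s, ν (f i) :=
  Finset.le_sum_of_subadditive ν h.zero.le h.add s f

theorem SN.nat (h : SN ν) (n : ℕ) : ν n ≤ n := by
  induction n with
  | zero => simpa using h.zero.le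
  | succ n ih =>
    rw [Nat.cast_succ, Nat.cast_succ]
    linarith [h.add n 1, h.one]

theorem SN.int (h : SN ν) (n : ℤ) : ν n ≤ |(n : ℝ)| := by
  obtain ⟨k, rfl | rfl⟩ := n.eq_nat_or_neg
  · simpa using h.nat k
  · simpa using (h.neg _).trans (h.nat k)

/-- weighted sum of the seminorms of the coefficients -/
noncomputable def wr {σ : Type} (ν : R → ℝ) (β : σ → ℝ) (F : MvPolynomial σ R) : ℝ :=
  ∑ d ∈ F.support, ν (F.coeff d) * d.prod fun s e => β s ^ e

/-- the linear change of variables in each block -/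
noncomputable def lr {m : ℕ} {ι : Type} [Fintype ι] (A : Fin m → Matrix ι ι R) :
    MvPolynomial (Fin m × ι) R →ₐ[R] MvPolynomial (Fin m × ι) R :=
  MvPolynomial.bind₁ fun s => ∑ j, MvPolynomial.C (A s.1 s.2 j) * MvPolynomial.X (s.1, j)

/-- homogeneous of degree `d h` in the block `h` -/
def MR {m : ℕ} {ι : Type} [Fintype ι] (d : Fin m → ℕ) (P : MvPolynomial (Fin m × ι) R) : Prop :=
  ∀ J ∈ P.support, ∀ h, ∑ i, J (h, i) = d h

section wr

variable {σ τ : Type} {β β' : σ → ℝ}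

theorem wr_nonneg (hν : SN ν) (h : ∀ s, 0 ≤ β s) (F : MvPolynomial σ R) : 0 ≤ wr ν β F :=
  Finset.sum_nonneg fun d _ => mul_nonneg (hν.nn _) (prod_pow_nonneg h d)

theorem wr_eq_sum (hν : SN ν) (F : MvPolynomial σ R) {s : Finset (σ →₀ ℕ)} (h : F.support ⊆ s) :
    wr ν β F = ∑ d ∈ s, ν (F.coeff d) * d.prod fun s e => β s ^ e :=
  Finset.sum_subset h fun d _ hd => by simp [notMem_support_iff.1 hd, hν.zero]

theorem wr_zero : wr ν β (0 : MvPolynomial σ R) = 0 := by simp [wr]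

theorem wr_one_eq (F : MvPolynomial σ R) : wr ν 1 F = ∑ d ∈ F.support, ν (F.coeff d) := by
  simp [wr, Finsupp.prod]

theorem wr_add_le (hν : SN ν) (h : ∀ s, 0 ≤ β s) (F G : MvPolynomial σ R) :
    wr ν β (F + G) ≤ wr ν β F + wr ν β G := by
  classical
  rw [wr_eq_sum hν (F + G) support_add, wr_eq_sum hν F (s := F.support ∪ G.support)
    Finset.subset_union_left, wr_eq_sum hν G (s := F.support ∪ G.support)
    Finset.subset_union_right, ← Finset.sum_add_distrib]
  refine Finset.sum_le_sum fun d _ => ?_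
  rw [coeff_add, ← add_mul]
  exact mul_le_mul_of_nonneg_right (hν.add _ _) (prod_pow_nonneg h d)

theorem wr_sum_le (hν : SN ν) {ι : Type*} (h : ∀ s, 0 ≤ β s) (s : Finset ι)
    (F : ι → MvPolynomial σ R) : wr ν β (∑ i ∈ s, F i) ≤ ∑ i ∈ s, wr ν β (F i) :=
  Finset.le_sum_of_subadditive (wr ν β) wr_zero.le (wr_add_le hν h) s F

theorem wr_monomial (hν : SN ν) (d : σ →₀ ℕ) (a : R) :
    wr ν β (monomial d a) = ν a * d.prod fun s e => β s ^ e := by
  classical
  rw [wr_eq_sum hν _ support_monomial_subset]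
  simp

theorem wr_C (hν : SN ν) (a : R) : wr ν β (C a) = ν a := by
  rw [C_apply, wr_monomial hν]; simp

theorem wr_X (hν : SN ν) (h : ∀ s, 0 ≤ β s) (s : σ) : wr ν β (X s) ≤ β s := by
  rw [X, wr_monomial hν]
  simpa using mul_le_of_le_one_left (h s) hν.one

theorem wr_mul_le (hν : SN ν) (h : ∀ s, 0 ≤ β s) (F G : MvPolynomial σ R) :
    wr ν β (F * G) ≤ wr ν β F * wr ν β G := by
  conv_lhs => rw [F.as_sum, G.as_sum, Finset.sum_mul_sum]
  rw [wr.eq_1 ν β F, wr.eq_1 ν β G, Finset.sum_mul_sum]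
  refine (wr_sum_le hν h _ _).trans (Finset.sum_le_sum fun d _ => ?_)
  refine (wr_sum_le hν h _ _).trans (Finset.sum_le_sum fun e _ => ?_)
  rw [monomial_mul, wr_monomial hν, Finsupp.prod_add_index' (by simp) (by simp [pow_add])]
  exact (mul_le_mul_of_nonneg_right (hν.mul _ _)
    (mul_nonneg (prod_pow_nonneg h _) (prod_pow_nonneg h _))).trans_eq (by ring)

theorem wr_prod_le (hν : SN ν) {ι : Type*} (h : ∀ s, 0 ≤ β s) (s : Finset ι)
    (F : ι → MvPolynomial σ R) : wr ν β (∏ i ∈ s, F i) ≤ ∏ i ∈ s, wr ν β (F i) := by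
  classical
  induction s using Finset.induction_on with
  | empty => simpa using (wr_C (β := β) hν 1).trans_le hν.one
  | insert a s ha ih =>
    rw [Finset.prod_insert ha, Finset.prod_insert ha]
    exact (wr_mul_le hν h _ _).trans (mul_le_mul_of_nonneg_left ih (wr_nonneg hν h _))

theorem wr_pow_le (hν : SN ν) (h : ∀ s, 0 ≤ β s) (F : MvPolynomial σ R) (n : ℕ) :
    wr ν β (F ^ n) ≤ wr ν β F ^ n := by
  simpa using wr_prod_le hν h (Finset.range n) fun _ => F

theorem coeff_le_wr (hν : SN ν) (h : ∀ s, 0 ≤ β s) (F : MvPolynomial σ R) (d : σ →₀ ℕ) :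
    ν (F.coeff d) * (d.prod fun s e => β s ^ e) ≤ wr ν β F := by
  by_cases hd : d ∈ F.support
  · exact Finset.single_le_sum (f := fun d : σ →₀ ℕ =>
      ν (F.coeff d) * d.prod fun s e => β s ^ e)
      (fun d _ => mul_nonneg (hν.nn _) (prod_pow_nonneg h d)) hd
  · simpa [notMem_support_iff.1 hd, hν.zero] using wr_nonneg hν h F

theorem wr_mono (hν : SN ν) (h : ∀ s, 0 ≤ β s) (h' : ∀ s, β s ≤ β' s) (F : MvPolynomial σ R) :
    wr ν β F ≤ wr ν β' F :=
  Finset.sum_le_sum fun _ _ => mul_le_mul_of_nonneg_left (Finset.prod_le_prod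
    (fun s _ => pow_nonneg (h s) _) fun s _ => pow_le_pow_left₀ (h s) (h' s) _) (hν.nn _)

theorem wr_le_mul (hν : SN ν) {M : ℝ} (F : MvPolynomial σ R)
    (h : ∀ d ∈ F.support, (d.prod fun s e => β s ^ e) ≤ M) : wr ν β F ≤ wr ν 1 F * M := by
  rw [wr_one_eq, Finset.sum_mul]
  exact Finset.sum_le_sum fun d hd => mul_le_mul_of_nonneg_left (h d hd) (hν.nn _)

theorem wr_bind_le (hν : SN ν) (h : ∀ s, 0 ≤ β s) (f : τ → MvPolynomial σ R)
    (F : MvPolynomial τ R) : wr ν β (bind₁ f F) ≤ wr ν (fun t => wr ν β (f t)) F := by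
  conv_lhs => rw [F.as_sum, map_sum]
  refine (wr_sum_le hν h _ _).trans (Finset.sum_le_sum fun d _ => ?_)
  rw [bind₁_monomial]
  refine (wr_mul_le hν h _ _).trans ?_
  rw [wr_C hν]
  refine mul_le_mul_of_nonneg_left ((wr_prod_le hν h _ _).trans ?_) (hν.nn _)
  exact Finset.prod_le_prod (fun t _ => wr_nonneg hν h _) fun t _ => wr_pow_le hν h _ _

theorem wr_map (F : MvPolynomial σ ℤ) :
    wr (fun x : ℝ => |x|) 1 (map (Int.castRingHom ℝ) F) = wn 1 F := by
  rw [wr_one_eq, wn_one_eq, support_map_of_injective _ (Int.castRingHom ℝ).injective_int]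
  simp [coeff_map]

end wr

section lr

variable {m : ℕ} {ι : Type} [Fintype ι]

theorem lr_X (A : Fin m → Matrix ι ι R) (s : Fin m × ι) :
    lr A (X s) = ∑ j, C (A s.1 s.2 j) * X (s.1, j) := bind₁_X_right _ _

theorem lr_lr (A B : Fin m → Matrix ι ι R) (P : MvPolynomial (Fin m × ι) R) :
    lr A (lr B P) = lr (fun h => B h * A h) P := by
  have : (lr A).comp (lr B) = lr (fun h => B h * A h) := algHom_ext fun s => by
    simp only [AlgHom.comp_apply, lr_X, map_sum, map_mul, algHom_C, Matrix.mul_apply,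
      Finset.mul_sum, Finset.sum_mul, algebraMap_eq]
    rw [Finset.sum_comm]
    simp only [mul_assoc]
  exact DFunLike.congr_fun this P

theorem map_lr {R' : Type} [CommRing R'] (φ : R →+* R') (A : Fin m → Matrix ι ι R)
    (P : MvPolynomial (Fin m × ι) R) :
    map φ (lr A P) = lr (fun h => (A h).map φ) (map φ P) := by
  rw [lr, map_bind₁, lr]
  simp

theorem lr_monomial (A : Fin m → Matrix ι ι R) (J : Fin m × ι →₀ ℕ) (a : R) :
    lr A (monomial J a) = C a * ∏ s, (∑ j, C (A s.1 s.2 j) * X (s.1, j)) ^ J s := by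
  rw [lr, bind₁_monomial]
  congr 1
  exact Finset.prod_subset (Finset.subset_univ _) fun s _ hs => by
    rw [Finsupp.notMem_support_iff.1 hs, pow_zero]

theorem wr_lr_le (hν : SN ν) {β : Fin m × ι → ℝ} (h : ∀ s, 0 ≤ β s) (A : Fin m → Matrix ι ι R)
    (P : MvPolynomial (Fin m × ι) R) :
    wr ν β (lr A P) ≤ wr ν (fun s => ∑ j, ν (A s.1 s.2 j) * β (s.1, j)) P :=
  (wr_bind_le hν h _ P).trans (wr_mono hν (fun _ => wr_nonneg hν h _) (fun s =>
    (wr_sum_le hν h _ _).trans (Finset.sum_le_sum fun j _ => (wr_mul_le hν h _ _).trans (by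
      rw [wr_C hν]
      exact mul_le_mul_of_nonneg_left (wr_X hν h _) (hν.nn _)))) P)

theorem MR.sum_eq {d : Fin m → ℕ} {P : MvPolynomial (Fin m × ι) R} (hP : MR d P)
    {J : Fin m × ι →₀ ℕ} (hJ : J ∈ P.support) : ∑ s, J s = ∑ h, d h := by
  rw [Fintype.sum_prod_type]
  exact Finset.sum_congr rfl fun h _ => hP J hJ h

theorem MR.map {R' : Type} [CommRing R'] (φ : R →+* R') {d : Fin m → ℕ}
    {P : MvPolynomial (Fin m × ι) R} (hP : MR d P) : MR d (map φ P) :=
  fun J hJ => hP J (support_map_subset φ P hJ)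

theorem mr_iff {d : Fin m → ℕ} {P : MvPolynomial (Fin m × ι) R} : MR d P ↔
    IsWeightedHomogeneous (fun s : Fin m × ι => (Pi.single s.1 1 : Fin m → ℕ)) P d := by
  have key : ∀ J : Fin m × ι →₀ ℕ, Finsupp.weight (fun s : Fin m × ι =>
      (Pi.single s.1 1 : Fin m → ℕ)) J = fun h => ∑ i, J (h, i) := fun J => by
    funext h
    rw [Finsupp.weight_apply, Finsupp.sum_fintype _ _ (by simp), Fintype.sum_prod_type]
    simp [Finset.sum_apply, Pi.single_apply]
  constructor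
  · intro h J hJ
    rw [key]
    exact funext (h J (mem_support_iff.2 hJ))
  · intro h J hJ
    have := h (mem_support_iff.1 hJ)
    rw [key] at this
    exact congrFun this

theorem MR.lr {d : Fin m → ℕ} {P : MvPolynomial (Fin m × ι) R} (hP : MR d P)
    (A : Fin m → Matrix ι ι R) : MR d (lr A P) := by
  rw [mr_iff, P.as_sum, map_sum]
  refine IsWeightedHomogeneous.sum _ _ _ fun J hJ => ?_
  rw [lr_monomial]
  have h1 : ∀ s : Fin m × ι, IsWeightedHomogeneous
      (fun s : Fin m × ι => (Pi.single s.1 1 : Fin m → ℕ))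
      (∑ j, C (A s.1 s.2 j) * X (s.1, j) : MvPolynomial (Fin m × ι) R) (Pi.single s.1 1) :=
    fun s => IsWeightedHomogeneous.sum _ _ _ fun j _ =>
      (isWeightedHomogeneous_X R _ (s.1, j)).C_mul _
  have h2 := (IsWeightedHomogeneous.prod Finset.univ _ _ fun s _ => (h1 s).pow (J s)).C_mul
    (P.coeff J)
  convert h2 using 1
  funext h
  rw [← hP J hJ h, Fintype.sum_prod_type]
  simp [Finset.sum_apply, Pi.single_apply]

theorem MR.lr_smul_one [DecidableEq ι] {d : Fin m → ℕ} {P : MvPolynomial (Fin m × ι) R}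
    (hP : MR d P) (a : R) : Pool.Agent.P.MP_fea266_nt.lr (fun _ => a • (1 : Matrix ι ι R)) P =
      C (a ^ ∑ h, d h) * P := by
  conv_lhs => rw [P.as_sum, map_sum]
  conv_rhs => rw [P.as_sum, Finset.mul_sum]
  refine Finset.sum_congr rfl fun J hJ => ?_
  have h1 : ∀ s : Fin m × ι, (∑ j, C ((a • (1 : Matrix ι ι R)) s.2 j) * X (s.1, j) :
      MvPolynomial (Fin m × ι) R) = C a * X s := fun s => by
    rw [Finset.sum_eq_single s.2 (fun j _ hj => by simp [Matrix.one_apply_ne hj.symm]) (by simp)]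
    simp
  rw [lr_monomial]
  simp only [h1, mul_pow, Finset.prod_mul_distrib, Finset.prod_pow_eq_pow_sum, hP.sum_eq hJ]
  rw [monomial_eq, Finsupp.prod_fintype _ _ (by simp), map_pow]
  ring

theorem MR.lr_adj [DecidableEq ι] {d : Fin m → ℕ} {P : MvPolynomial (Fin m × ι) R}
    (hP : MR d P) (L : Matrix ι ι R) (A : Fin m → Matrix ι ι R) :
    Pool.Agent.P.MP_fea266_nt.lr (fun h => L * A h)
        (Pool.Agent.P.MP_fea266_nt.lr (fun _ => L.adjugate) P) =
      C (L.det ^ ∑ h, d h) * Pool.Agent.P.MP_fea266_nt.lr A P := by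
  have h := lr_lr A (fun _ => L.det • (1 : Matrix ι ι R)) P
  rw [hP.lr_smul_one, map_mul, algHom_C, algebraMap_eq] at h
  rw [lr_lr, h]
  simp only [← Matrix.mul_assoc, Matrix.adjugate_mul]

theorem wr_lr_const (hν : SN ν) {d : Fin m → ℕ} {P : MvPolynomial (Fin m × ι) R} (hP : MR d P)
    (B : Matrix ι ι R) {K : ℝ} (hK : ∀ i, ∑ j, ν (B i j) ≤ K) :
    wr ν 1 (lr (fun _ => B) P) ≤ wr ν 1 P * K ^ ∑ h, d h := by
  refine (wr_lr_le hν (fun _ => zero_le_one) _ _).trans (wr_le_mul hν P fun J hJ => ?_)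
  rw [Finsupp.prod_fintype _ _ (by simp), ← hP.sum_eq hJ, ← Finset.prod_pow_eq_pow_sum]
  have h0 : ∀ s : Fin m × ι, 0 ≤ ∑ j, ν (B s.2 j) * (1 : Fin m × ι → ℝ) (s.1, j) := fun s =>
    Finset.sum_nonneg fun j _ => mul_nonneg (hν.nn _) zero_le_one
  refine Finset.prod_le_prod (fun s _ => pow_nonneg (h0 s) _) fun s _ => ?_
  refine pow_le_pow_left₀ (h0 s) ?_ _
  simpa using hK s.2

end lr

end Pool.Agent.P.MP_fea266_nt
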