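import Pool.Agent.P.MP_fea266_nt.Hyp

/-! Schmidt's subspace theorem for real algebraic linear forms. -/

set_option autoImplicit false

open Matrix Filter

namespace Pool.Agent.P.MP_fea266_nt

open Pool.Agent.P.MP_fc15d7_nt

theorem bas_a {D : ℕ} {L : Matrix (Fin D) (Fin D) ℝ} (hL : L.det ≠ 0) (c : Fin D → ℝ) :
    ∃ K : ℝ, 1 ≤ K ∧ ∀ t : ℝ, ∃ (Y : Matrix (Fin D) (Fin D) ℤ) (μ : Fin D → ℝ),
      Y.det ≠ 0 ∧ (∀ j, 0 < μ j) ∧
      (∀ i j, |(L * rm Y) i j| ≤ Real.exp (c i * t) * (K * μ i) ∧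
        |(L * rm Y) i j| ≤ Real.exp (c i * t) * (K * μ j)) ∧
      ∑ j, Real.log (μ j) = -(∑ i, c i) * t + Real.log |L.det| ∧
      ∀ x, Box L c t x →
        ∃ a : Fin D → ℤ, x = Y *ᵥ a ∧ ∀ j, D.factorial * K ^ D < μ j → a j = 0 := by
  obtain ⟨K, hK, hR⟩ := t_REDU D
  refine ⟨K, hK, fun t => ?_⟩
  have l0 : (0 : ℝ) < |L.det| := abs_pos.2 hL
  let A := diagonal (fun i => Real.exp (-(c i * t))) * L
  have hA : |A.det| = Real.exp (-((∑ i, c i) * t)) * |L.det| := by
    rw [det_mul, det_diagonal, ← Real.exp_sum, abs_mul, abs_of_pos (Real.exp_pos _),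
      Finset.sum_neg_distrib, Finset.sum_mul]
  obtain ⟨V, μ, hV, m0, m1, m2⟩ := hR A (abs_pos.1 (by rw [hA]; positivity))
  have e : A * V.map (Int.cast : ℤ → ℝ) =
      diagonal (fun i => Real.exp (-(c i * t))) * (L * rm V) := Matrix.mul_assoc _ _ _
  have key : ∀ (i : Fin D) (y z : ℝ), |Real.exp (-(c i * t)) * y| ≤ z ↔
      |y| ≤ Real.exp (c i * t) * z := fun i y z => by
    rw [abs_mul, abs_of_pos (Real.exp_pos _), Real.exp_neg, inv_mul_le_iff₀ (Real.exp_pos _)]
  refine ⟨V, μ, hV.ne_zero, m0, fun i j => ?_, ?_, fun x hx => ?_⟩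
  · have h := m2 i j
    rwa [e, diagonal_mul, key, key] at h
  · rw [← Real.log_prod fun j _ => (m0 j).ne', m1, hA, Real.log_mul (Real.exp_ne_zero _)
      l0.ne', Real.log_exp, neg_mul]
  · have h1 : x = V *ᵥ (V⁻¹ *ᵥ x) := by rw [mulVec_mulVec, mul_nonsing_inv V hV, one_mulVec]
    refine ⟨_, h1, fun j hj => by_contra fun h2 => ?_⟩
    generalize V⁻¹ *ᵥ x = a' at h1 h2
    have h3 := bas_cramer _ μ hK m0 (by
      rw [m1, det_mul A, ← Int.cast_det, abs_mul, ← Int.cast_abs, Int.isUnit_iff_abs_eq.1 hV,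
        Int.cast_one, mul_one]) (fun i j => (m2 i j).2) (rv a') (fun i => by
      have h4 := hx i
      have h5 : rv x = rm V *ᵥ rv a' := by
        funext l
        simp [h1, rv, rm, mulVec, dotProduct]
      rw [h5, mulVec_mulVec] at h4
      rwa [e, ← mulVec_mulVec, mulVec_diagonal, key, mul_one]) j
    have h4 : (1 : ℝ) ≤ |rv a' j| := by
      rw [rv]
      exact_mod_cast Int.one_le_abs h2
    nlinarith [m0 j]

theorem bas {D : ℕ} {L : Matrix (Fin D) (Fin D) ℝ} (hL : L.det ≠ 0) (c : Fin D → ℝ)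
    (U : Ultrafilter ℕ) {N : ℕ → ℝ} (hN : Tendsto N U atTop) :
    ∃ (Y : ℕ → Matrix (Fin D) (Fin D) ℤ) (ν : Fin D → ℝ),
      ∑ i, c i + ∑ i, ν i = 0 ∧ (∀ n, (Y n).det ≠ 0) ∧
      (∀ η : ℝ, 0 < η → ∀ᶠ n in U, ∀ i j,
        |(L * rm (Y n)) i j| ≤ Real.exp ((c i + min (ν i) (ν j) + η) * N n)) ∧
      ∀ᶠ n in U, ∀ x, Box L c (N n) x →
        ∃ a : Fin D → ℤ, x = Y n *ᵥ a ∧ ∀ j, 0 < ν j → a j = 0 := by
  obtain ⟨K, hK, h⟩ := bas_a hL c
  choose Y μ y1 m0 y3 y4 y5 using fun n => h (N n)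
  set E := -∑ i, c i with hE
  let f : Fin D → ℕ → ℝ := fun j n => Real.log (μ n j) / N n
  have hf : ∀ n j, 0 < N n → μ n j = Real.exp (f j n * N n) := fun n j h => by
    rw [div_mul_cancel₀ _ h.ne', Real.exp_log (m0 n j)]
  have h1 : ∀ n, 0 < N n → |∑ j, f j n - E| ≤ |Real.log (|L.det|)| / N n := fun n h => by
    rw [← Finset.sum_div, le_div_iff₀ h, ← abs_of_pos h, ← abs_mul, abs_of_pos h, sub_mul,
      div_mul_cancel₀ _ h.ne', y4, add_sub_cancel_left]
  have h2 : Tendsto (fun n => ∑ j, f j n) U (nhds E) :=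
    tendsto_sub_nhds_zero_iff.1 (squeeze_zero_norm' ((hN.eventually_gt_atTop 0).mono h1)
      (hN.const_div_atTop _))
  obtain ⟨K1, hK1, hK2⟩ := row_bound sn_abs L⁻¹
  have hK' := Real.log_nonneg (one_le_mul_of_one_le_of_one_le hK1 hK)
  have hc0 : 0 ≤ ∑ i, |c i| := Finset.sum_nonneg fun _ _ => abs_nonneg _
  have h3 : ∀ n j, 1 ≤ N n → 0 ≤ f j n + (Real.log (K1 * K) + ∑ i, |c i|) := fun n j h => by
    obtain ⟨i, hi⟩ : ∃ i, Y n i j ≠ 0 := by
      by_contra h4
      push Not at h4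
      exact y1 n (det_eq_zero_of_column_eq_zero j h4)
    have h4 : (1 : ℝ) ≤ |rm (Y n) i j| := by
      rw [rm, map_apply, eq_intCast]
      exact_mod_cast Int.one_le_abs hi
    have h5 : |rm (Y n) i j| ≤ K1 * (Real.exp ((∑ i, |c i|) * N n) * (K * μ n j)) := by
      rw [← nonsing_inv_mul_cancel_left L (rm (Y n)) (Ne.isUnit hL), mul_apply]
      have h6 := m0 n j
      refine (Finset.abs_sum_le_sum_abs _ _).trans (le_trans ?_
        (mul_le_mul_of_nonneg_right (hK2 i) (by positivity)))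
      rw [Finset.sum_mul]
      refine Finset.sum_le_sum fun l _ => ?_
      rw [abs_mul]
      refine mul_le_mul_of_nonneg_left ((y3 n l j).2.trans ?_) (abs_nonneg _)
      gcongr
      exact (le_abs_self _).trans (Finset.single_le_sum (f := fun i => |c i|)
        (fun _ _ => abs_nonneg _) (Finset.mem_univ l))
    have h6 : (1 : ℝ) ≤ Real.exp (Real.log (K1 * K) + ((∑ i, |c i|) * N n + f j n * N n)) := by
      rw [Real.exp_add, Real.exp_add, Real.exp_log (by positivity), ← hf n j (by linarith)]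
      exact (h4.trans h5).trans_eq (by ring)
    rw [Real.one_le_exp_iff] at h6
    refine nonneg_of_mul_nonneg_left (b := N n) ?_ (by linarith)
    nlinarith
  choose ν hν using fun j => exists_lim U (f := f j) (a := -(Real.log (K1 * K) + ∑ i, |c i|))
    (b := E + 1 + D * (Real.log (K1 * K) + ∑ i, |c i|)) (by
      filter_upwards [hN.eventually_ge_atTop 1, h2.eventually_le_const (lt_add_one E)] with n a b
      have h4 := Finset.single_le_sum (f := fun j => f j n + (Real.log (K1 * K) + ∑ i, |c i|))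
        (fun j _ => h3 n j a) (Finset.mem_univ j)
      rw [Finset.sum_add_distrib, Finset.sum_const, Finset.card_univ, Fintype.card_fin,
        nsmul_eq_mul] at h4
      exact ⟨by linarith [h3 n j a], by linarith⟩)
  refine ⟨Y, ν, ?_, y1, fun η hη => ?_, ?_⟩
  · rw [tendsto_nhds_unique (tendsto_finsetSum _ fun j _ => hν j) h2, hE]
    ring
  · filter_upwards [hN.eventually_gt_atTop 0, ev_le_exp hN K (half_pos hη), eventually_all.2
      fun j => (hν j).eventually_le_const (lt_add_of_pos_right _ (half_pos hη))] with n a b d i j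
    have h4 : ∀ l, Real.exp (c i * N n) * (K * μ n l) ≤ Real.exp ((c i + ν l + η) * N n) := by
      intro l
      rw [hf n l a, show (c i + ν l + η) * N n =
        c i * N n + (η / 2 * N n + (ν l + η / 2) * N n) by ring, Real.exp_add, Real.exp_add]
      gcongr
      exact d l
    rcases min_choice (ν i) (ν j) with e | e <;> rw [e]
    · exact (y3 n i j).1.trans (h4 i)
    · exact (y3 n i j).2.trans (h4 j)
  · have h4 : ∀ j, ∀ᶠ n in U, 0 < ν j → D.factorial * K ^ D < μ n j := fun j => by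
      by_cases h5 : 0 < ν j
      · filter_upwards [hN.eventually_gt_atTop 0, ev_le_exp hN (D.factorial * K ^ D) (half_pos h5),
          (hν j).eventually_const_lt (half_lt_self h5)] with n a b d _
        rw [hf n j a]
        exact b.trans_lt (Real.exp_lt_exp.2 (mul_lt_mul_of_pos_right d a))
      · exact Eventually.of_forall fun n h6 => absurd h6 h5
    filter_upwards [eventually_all.2 h4] with n hn x hx
    obtain ⟨a, h5, h6⟩ := y5 n x hx
    exact ⟨a, h5, fun j hj => h6 j (hn j hj)⟩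

variable {D a : ℕ}

theorem cmp_size {A : Matrix (Fin D) (Fin D) ℝ} {c ν : Fin D → ℝ} {η γ N : ℝ} (hN : 0 ≤ N)
    (h : ∀ i j, |A i j| ≤ Real.exp ((c i + min (ν i) (ν j) + η) * N)) {t0 t : Sb D a}
    (h1 : ∀ i ∈ t0.1, γ ≤ ν i) (h2 : ∀ j ∉ t0.1, ν j ≤ 0) (ht : t ≠ t0) (s : Sb D a) :
    |cmp a A s t| ≤ a.factorial *
      Real.exp ((∑ i ∈ s.1, (c i + ν i) + a * η - if s = t0 then γ else 0) * N) := by
  refine (abs_det_le _ fun σ => ?_).trans_eq (by rw [Fintype.card_fin])
  refine (Finset.prod_le_prod (fun _ _ => abs_nonneg _) fun r _ => h _ _).trans ?_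
  rw [← Real.exp_sum, ← Finset.sum_mul]
  refine Real.exp_le_exp.2 (mul_le_mul_of_nonneg_right ?_ hN)
  have h3 : ∀ r ∈ Finset.univ, 0 ≤ ν (emb s (σ r)) - min (ν (emb s (σ r))) (ν (emb t r)) :=
    fun r _ => sub_nonneg.2 (min_le_left _ _)
  have h4 : (if s = t0 then γ else 0) ≤
      ∑ r, (ν (emb s (σ r)) - min (ν (emb s (σ r))) (ν (emb t r))) := by
    split_ifs with e
    · obtain ⟨r, hr⟩ := st_out ht
      refine le_trans ?_ (Finset.single_le_sum h3 (Finset.mem_univ r))
      have := h1 (emb s (σ r)) (e ▸ Finset.orderEmbOfFin_mem _ _ _)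
      linarith [min_le_right (ν (emb s (σ r))) (ν (emb t r)), h2 _ hr]
    · exact Finset.sum_nonneg h3
  rw [← st_sum, ← Equiv.sum_comp σ fun r => c (emb s r) + ν (emb s r)]
  simp only [Finset.sum_add_distrib, Finset.sum_sub_distrib, Finset.sum_const, Finset.card_univ,
    Fintype.card_fin, nsmul_eq_mul] at h4 ⊢
  linarith

theorem cmp_rm (A : Matrix (Fin D) (Fin D) ℤ) : cmp a (rm A) = rm (cmp a A) := by
  ext s t
  exact rm_det (A.submatrix (emb s) (emb t))

theorem cmp_det {L : Matrix (Fin D) (Fin D) ℝ} (hL : L.det ≠ 0) : (cmp a L).det ≠ 0 := fun h => by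
  have h1 : cmp a (1 : Matrix (Fin D) (Fin D) ℝ) = 1 := by
    have h2 := cmp_smul_one (D := D) (a := a) 1
    rw [one_smul, one_pow, one_smul] at h2
    have h3 := cmp_rm (a := a) (1 : Matrix (Fin D) (Fin D) ℤ)
    rw [h2] at h3
    simpa [rm] using h3
  have h2 := congrArg det (cmp_mul (a := a) L L⁻¹)
  rw [mul_nonsing_inv L (Ne.isUnit hL), h1, det_one, det_mul, h, zero_mul] at h2
  exact one_ne_zero h2

theorem schmidt {L : Matrix (Fin D) (Fin D) ℝ} (hAl : Alg L) (hL : L.det ≠ 0) {c : Fin D → ℝ}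
    (hc : ∑ i, c i < 0) (U : Ultrafilter ℕ) {N : ℕ → ℝ} (x : ℕ → Fin D → ℤ)
    (hN : Tendsto N U atTop) (hx : ∀ᶠ n in U, Box L c (N n) (x n)) :
    ∃ l : Fin D → ℤ, l ≠ 0 ∧ ∀ᶠ n in U, ∑ i, l i * x n i = 0 := by
  obtain ⟨Y, ν, h1, h2, h4, h5⟩ := bas hL c U hN
  set t0 := Finset.univ.filter fun j => 0 < ν j with ht0
  have h6 : ∀ j ∉ t0, ν j ≤ 0 := fun j hj => by simpa [ht0] using hj
  have hne : t0.Nonempty := by
    rw [Finset.nonempty_iff_ne_empty]
    intro e
    have := Finset.sum_nonpos fun j (_ : j ∈ Finset.univ) => h6 j (e ▸ Finset.notMem_empty j)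
    linarith
  obtain ⟨j1, hj1, hγ⟩ := t0.exists_min_image ν hne
  have hγ0 : 0 < ν j1 := (Finset.mem_filter.1 hj1).2
  set a := t0.card
  set T0 : Sb D a := ⟨t0, rfl⟩
  set η := ν j1 / ((Fintype.card (Sb D a) + 1) * (a + 1)) with hη
  have hη0 : 0 < η := by positivity
  have hcol : ∀ n s t, (cmp a L *ᵥ rv fun i => cmp a (Y n) i t) s = cmp a (L * rm (Y n)) s t :=
    fun n s t => by rw [cmp_mul, cmp_rm]; rfl
  obtain ⟨w, hw, hw'⟩ := hyp (hAl.cmp a) (cmp_det hL)
    (c := fun s => ∑ i ∈ s.1, (c i + ν i) + (a + 1) * η - if s = T0 then ν j1 else 0)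
    (by
      obtain ⟨b, hb⟩ := t_CMP.2.2.2 D a
      have e : ((Fintype.card (Sb D a) : ℝ) + 1) * ((a + 1) * η) = ν j1 := by
        rw [hη]; field_simp
      have e' : (0 : ℝ) < (a + 1) * η := by positivity
      simp only [Finset.sum_sub_distrib, Finset.sum_add_distrib (s := Finset.univ), hb,
        Finset.sum_ite_eq', Finset.mem_univ, if_true, Finset.sum_const, Finset.card_univ,
        nsmul_eq_mul, h1]
      linarith) U (fun n => cmp a (Y n)) T0 hN (by
      filter_upwards [h4 η hη0, ev_le_exp hN a.factorial hη0, hN.eventually_ge_atTop 0]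
        with n e1 e2 e3
      refine ⟨t_CMP.2.2.1 _ _ _ (h2 n), fun t ht s => ?_⟩
      rw [hcol]
      refine (cmp_size (t0 := T0) e3 e1 hγ h6 ht s).trans
        ((mul_le_mul_of_nonneg_right e2 (Real.exp_pos _).le).trans_eq ?_)
      rw [← Real.exp_add]
      congr 1
      ring)
  obtain ⟨l, hl, hl'⟩ := t_PLK t_CMP D a w hne.card_pos hw
  refine ⟨l, hl, ?_⟩
  filter_upwards [hw', h5, hx] with n e1 e2 e3
  obtain ⟨α, e4, e5⟩ := e2 _ e3
  simp only [e4, Matrix.mulVec, dotProduct, Finset.mul_sum, ← mul_assoc]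
  rw [Finset.sum_comm]
  refine Finset.sum_eq_zero fun j _ => ?_
  rw [← Finset.sum_mul]
  by_cases hj : j ∈ t0
  · rw [e5 j (Finset.mem_filter.1 hj).2, mul_zero]
  · rw [hl' (Y n) T0 (h2 n) e1 j hj, zero_mul]

/-- One linear form in `D` variables with algebraic coefficients that are linearly independent
over the rationals is not smaller than the power `-(D - 1) - ε` of the height. -/
theorem one_form (U : Ultrafilter ℕ) {N : ℕ → ℝ} (hN : Tendsto N U atTop) :
    ∀ (D : ℕ) (γ : Fin D → ℝ) (τ : ℝ) (x : ℕ → Fin D → ℤ), (∀ i, IsIntegral ℤ (γ i)) →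
      (∀ l : Fin D → ℤ, ∑ i, l i * γ i = 0 → l = 0) → (D : ℝ) - 1 < τ →
      ¬ ∀ᶠ n in U, x n ≠ 0 ∧ (∀ i, |(x n i : ℝ)| ≤ Real.exp (N n)) ∧
        |∑ i, x n i * γ i| ≤ Real.exp (-τ * N n) := by
  intro D
  induction D with
  | zero => exact fun γ τ x _ _ _ h => h.exists.elim fun n hn => hn.1 (Subsingleton.elim _ _)
  | succ D ih =>
    intro γ τ x hγ hli hτ h
    have h0 : γ 0 ≠ 0 := fun e => by
      have := congrFun (hli (Pi.single 0 1) (by simp [Pi.single_apply, e])) 0
      simp at this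
    obtain ⟨l, hl, hl'⟩ := schmidt (L := (1 : Matrix _ _ ℝ).updateRow 0 γ)
      (c := Function.update (fun _ => 1) 0 (-τ)) (fun i j => by
        rw [updateRow_apply, one_apply]
        split_ifs
        exacts [hγ j, isIntegral_one, isIntegral_zero]) (by
        have := det_updateRow_sum (1 : Matrix (Fin (D + 1)) (Fin (D + 1)) ℝ) 0 γ
        rw [show ∑ k, γ k • (1 : Matrix (Fin (D + 1)) (Fin (D + 1)) ℝ) k = γ from
          funext fun j => by simp [one_apply]] at this
        rw [this]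
        simpa using h0) (by
        rw [Fin.sum_univ_succ]
        push_cast at hτ
        simp [Fin.succ_ne_zero]
        linarith) U x hN (h.mono fun n hn i => by
        by_cases e : i = 0
        · simpa [e, mulVec, dotProduct, rv, mul_comm] using hn.2.2
        · simpa [e, mulVec, dotProduct, rv, updateRow_ne e, one_apply] using hn.2.1 i)
    obtain ⟨k, hk⟩ := Function.ne_iff.1 hl
    have hk' : l k ≠ 0 := hk
    refine ih (fun j => l k * γ (k.succAbove j) - l (k.succAbove j) * γ k) (τ - 1 / 2)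
      (fun n j => x n (k.succAbove j)) (fun j => ((isIntegral_algebraMap (x := l k)).mul
        (hγ _)).sub ((isIntegral_algebraMap (x := l _)).mul (hγ _))) (fun r hr => ?_)
      (by push_cast at hτ; linarith) ?_
    · have h1 := hli (Fin.insertNth k (-∑ j, r j * l (k.succAbove j)) fun j => r j * l k) (by
        rw [Fin.sum_univ_succAbove _ k, ← hr]
        simp only [Fin.insertNth_apply_same, Fin.insertNth_apply_succAbove, mul_sub,
          Finset.sum_sub_distrib]
        push_cast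
        rw [neg_mul, Finset.sum_mul, neg_add_eq_sub]
        simp only [mul_assoc])
      funext j
      have h2 := congrFun h1 (k.succAbove j)
      rw [Fin.insertNth_apply_succAbove] at h2
      exact (mul_eq_zero.1 h2).resolve_right hk'
    · filter_upwards [h, hl', ev_le_exp hN |(l k : ℝ)| one_half_pos] with n e1 e2 e3
      rw [Fin.sum_univ_succAbove _ k] at e2
      refine ⟨fun e => e1.1 (funext fun i => ?_), fun j => e1.2.1 _, ?_⟩
      · have e4 : ∀ j, x n (k.succAbove j) = 0 := congrFun e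
        rcases Fin.eq_self_or_eq_succAbove k i with rfl | ⟨j, rfl⟩
        · simpa [e4, hk'] using e2
        · exact e4 j
      · have e4 : ∑ j, (x n (k.succAbove j) : ℝ) *
            (l k * γ (k.succAbove j) - l (k.succAbove j) * γ k) = l k * ∑ i, x n i * γ i := by
          have e5 : (l k : ℝ) * x n k = -∑ j, (l (k.succAbove j) : ℝ) * x n (k.succAbove j) := by
            exact_mod_cast eq_neg_of_add_eq_zero_left e2
          rw [Fin.sum_univ_succAbove _ k, mul_add, ← mul_assoc, e5, neg_mul, Finset.sum_mul,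
            Finset.mul_sum, neg_add_eq_sub, ← Finset.sum_sub_distrib]
          exact Finset.sum_congr rfl fun j _ => by ring
        rw [e4, abs_mul]
        refine (mul_le_mul e3 e1.2.2 (abs_nonneg _) (Real.exp_pos _).le).trans_eq ?_
        rw [← Real.exp_add]
        congr 1
        ring

end Pool.Agent.P.MP_fea266_nt
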