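import Pool.Agent.P.MP_fea266_nt.Ex
import Pool.Agent.P.MP_fea266_nt.Low
import Pool.Agent.P.MP_fea266_nt.St

/-! The upper bound: a subspace of dimension six with exponent seven. -/

set_option autoImplicit false

open Module Matrix Filter
open scoped RealInnerProductSpace

namespace Pool.Agent.P.MP_fea266_nt

theorem contr (c : E 8) (w : Fin 2 → Fin 8 → ℤ) :
    ‖⟪c, iv (w 1)⟫ • iv (w 0) - ⟪c, iv (w 0)⟫ • iv (w 1)‖ ≤ ‖c‖ * vol w := by
  have h := (posSemidef_gram ℝ ![c, iv (w 0), iv (w 1)]).det_nonneg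
  have h1 := (posSemidef_gram ℝ fun k => iv (w k)).det_nonneg
  refine le_of_sq_le_sq ?_ (mul_nonneg (norm_nonneg _) (Real.sqrt_nonneg _))
  rw [mul_pow, vol, Real.sq_sqrt h1, det_fin_two, ← real_inner_self_eq_norm_sq,
    ← real_inner_self_eq_norm_sq]
  rw [det_fin_three] at h
  simp only [gram_apply, cons_val, inner_sub_left, inner_sub_right, real_inner_smul_left,
    real_inner_smul_right, real_inner_comm c, real_inner_comm (iv (w 0)) (iv (w 1))] at h ⊢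
  linarith

theorem om_le (a b : E 8) {w : Fin 2 → Fin 8 → ℤ} {B : Submodule ℝ (E 8)} (hw : Spans w B)
    {X Y : E 8} (hX : X ∈ (Submodule.span ℝ (Set.range ![a, b]))ᗮ) (hY : Y ∈ B) :
    |om a b (w 0) (w 1)| * ‖Y‖ ≤ 2 * ‖a‖ * ‖b‖ * vol w * ‖Y - X‖ := by
  have h : ∀ i, |⟪![a, b] i, Y⟫| ≤ ‖![a, b] i‖ * ‖Y - X‖ := fun i => by
    refine le_of_eq_of_le ?_ (abs_real_inner_le_norm _ _)
    rw [inner_sub_right, hX _ (Submodule.subset_span ⟨i, rfl⟩), sub_zero]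
  have h0 : |⟪a, Y⟫| ≤ ‖a‖ * ‖Y - X‖ := h 0
  have h1 : |⟪b, Y⟫| ≤ ‖b‖ * ‖Y - X‖ := h 1
  have h2 : om a b (w 0) (w 1) • Y =
      ⟪a, Y⟫ • (⟪b, iv (w 1)⟫ • iv (w 0) - ⟪b, iv (w 0)⟫ • iv (w 1)) -
        ⟪b, Y⟫ • (⟪a, iv (w 1)⟫ • iv (w 0) - ⟪a, iv (w 0)⟫ • iv (w 1)) := by
    obtain ⟨c, rfl⟩ := (Submodule.mem_span_range_iff_exists_fun ℝ).1 (hw ▸ hY :)
    simp only [Fin.sum_univ_two, inner_add_right, real_inner_smul_right, om]
    module
  rw [← Real.norm_eq_abs, ← norm_smul, h2]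
  refine (norm_sub_le _ _).trans ?_
  rw [norm_smul, norm_smul, Real.norm_eq_abs, Real.norm_eq_abs]
  refine (add_le_add (mul_le_mul h0 (contr b w) (norm_nonneg _) (by positivity))
    (mul_le_mul h1 (contr a w) (norm_nonneg _) (by positivity))).trans_eq (by ring)

theorem lagr (w : Fin 2 → Fin 8 → ℤ) :
    ∑ i, ∑ j, pl (w 0) (w 1) i j ^ 2 = 2 * (of w * (of w)ᵀ).det := by
  simp only [det_fin_two, mul_apply, transpose_apply, of_apply, pl, Fin.sum_univ_eight]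
  ring

theorem pl_le (w : Fin 2 → Fin 8 → ℤ) (i j : Fin 8) : |(pl (w 0) (w 1) i j : ℝ)| ≤ 2 * vol w := by
  have h1 := (posSemidef_gram ℝ fun k => iv (w k)).det_nonneg
  have h2 := ((Finset.single_le_sum (fun _ _ => sq_nonneg _) (Finset.mem_univ j)).trans
    (Finset.single_le_sum (f := fun i => ∑ j, pl (w 0) (w 1) i j ^ 2)
      (fun _ _ => Finset.sum_nonneg fun _ _ => sq_nonneg _) (Finset.mem_univ i))).trans_eq (lagr w)
  refine abs_le_of_sq_le_sq ?_ (mul_nonneg zero_le_two (Real.sqrt_nonneg _))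
  rw [mul_pow, vol, Real.sq_sqrt h1]
  rw [det_gram] at h1 ⊢
  have : ((pl (w 0) (w 1) i j : ℤ) : ℝ) ^ 2 ≤ 2 * ((of w * (of w)ᵀ).det : ℤ) := by exact_mod_cast h2
  linarith

theorem pl_ne {w : Fin 2 → Fin 8 → ℤ} {B : Submodule ℝ (E 8)} (hw : Spans w B)
    (hB : finrank ℝ B = 2) : pl (w 0) (w 1) ≠ 0 := fun h => by
  have h1 := det_pos (hw.indep hB)
  have h2 := lagr w
  simp only [h, Pi.zero_apply, zero_pow two_ne_zero, Finset.sum_const_zero] at h2
  omega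

theorem fin_vol (K : ℝ) : {B : Submodule ℝ (E 8) | finrank ℝ B = 2 ∧
    ∃ w : Fin 2 → Fin 8 → ℤ, Spans w B ∧ vol w ≤ K}.Finite := by
  refine ((Set.Finite.pi' fun _ : Fin 8 => Set.Finite.pi' fun _ : Fin 8 =>
    Set.finite_Icc (-⌈2 * K⌉) ⌈2 * K⌉).image
      fun P => Submodule.span ℝ (Set.range fun i => iv (P i))).subset ?_
  rintro B ⟨hB, w, hw, h⟩
  refine ⟨pl (w 0) (w 1), fun i j => abs_le.1 ?_, le_antisymm (Submodule.span_le.2 ?_) ?_⟩
  · exact_mod_cast (pl_le w i j).trans ((mul_le_mul_of_nonneg_left h zero_le_two).trans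
      (Int.le_ceil _))
  · rintro _ ⟨i, rfl⟩
    have : iv (pl (w 0) (w 1) i) = (w 0 i : ℝ) • iv (w 1) - (w 1 i : ℝ) • iv (w 0) := by
      ext j
      simp [iv, pl, mul_comm]
    rw [← hw, SetLike.mem_coe]
    simp only [this]
    exact sub_mem (Submodule.smul_mem _ _ (Submodule.subset_span ⟨1, rfl⟩))
      (Submodule.smul_mem _ _ (Submodule.subset_span ⟨0, rfl⟩))
  · obtain ⟨i, hi⟩ := Function.ne_iff.1 (pl_ne hw hB)
    obtain ⟨j, hj⟩ := Function.ne_iff.1 hi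
    rw [← hw, Submodule.span_le]
    rintro _ ⟨k, rfl⟩
    have : (pl (w 0) (w 1) i j : ℝ) • iv (w k) =
        (w k j : ℝ) • iv (pl (w 0) (w 1) i) - (w k i : ℝ) • iv (pl (w 0) (w 1) j) := by
      ext l
      fin_cases k <;> simp [iv, pl] <;> ring
    rw [SetLike.mem_coe, ← Submodule.smul_mem_iff _ (Int.cast_ne_zero.2 hj : (_ : ℝ) ≠ 0), this]
    exact sub_mem (Submodule.smul_mem _ _ (Submodule.subset_span ⟨i, rfl⟩))
      (Submodule.smul_mem _ _ (Submodule.subset_span ⟨j, rfl⟩))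

theorem ww_le {P : Fin 8 → Fin 8 → ℤ} {G : ℝ} (h : ∀ i j, |(P i j : ℝ)| ≤ G) (k : Fin 7) :
    |(ww P k : ℝ)| ≤ 16 * G := by
  have h1 := fun i j => (abs_le.1 (h i j)).1
  have h2 := fun i j => (abs_le.1 (h i j)).2
  fin_cases k <;> simp only [ww, Fin.zero_eta, Fin.mk_one, Fin.reduceFinMk, cons_val] <;>
    push_cast <;> refine abs_le.2 ⟨?_, ?_⟩ <;>
    linarith [h1 0 1, h1 0 2, h1 0 3, h1 0 4, h1 0 5, h1 0 6, h1 0 7, h1 1 2, h1 1 3, h1 1 4, h1 1 5,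
      h1 1 6, h1 1 7, h1 2 3, h1 2 4, h1 2 5, h1 2 6, h1 2 7, h1 3 4, h1 3 5, h1 3 6, h1 3 7,
      h1 4 5, h1 4 6, h1 4 7, h1 5 6, h1 5 7, h1 6 7, h2 0 1, h2 0 2, h2 0 3, h2 0 4, h2 0 5,
      h2 0 6, h2 0 7, h2 1 2, h2 1 3, h2 1 4, h2 1 5, h2 1 6, h2 1 7, h2 2 3, h2 2 4, h2 2 5,
      h2 2 6, h2 2 7, h2 3 4, h2 3 5, h2 3 6, h2 3 7, h2 4 5, h2 4 6, h2 4 7, h2 5 6, h2 5 7, h2 6 7]

theorem up : mu 8 6 2 ≤ 7 := by
  obtain ⟨a, b, γ, κ, hκ, h1, h2, h3⟩ := ex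
  have h4 : ∀ u v, pl u v ≠ 0 → om a b u v ≠ 0 := fun u v h e =>
    h (ww_zero u v (h2 _ ((mul_eq_zero.1 (h3 u v ▸ e)).resolve_left hκ)))
  have h5 : LinearIndependent ℝ ![a, b] := LinearIndependent.pair_iff.2 fun s t e => by
    have e0 := h4 (Pi.single 0 1) (Pi.single 1 1) fun h => by
      simpa [pl] using congrFun (congrFun h 0) 1
    have e1 : ∀ u, s * ⟪a, iv u⟫ + t * ⟪b, iv u⟫ = 0 := fun u => by
      rw [← real_inner_smul_left, ← real_inner_smul_left, ← inner_add_left, e, inner_zero_left]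
    constructor <;> refine mul_right_cancel₀ e0 ?_ <;> rw [om]
    · linear_combination ⟪b, iv (Pi.single 1 1)⟫ * e1 (Pi.single 0 1) -
        ⟪b, iv (Pi.single 0 1)⟫ * e1 (Pi.single 1 1)
    · linear_combination ⟪a, iv (Pi.single 0 1)⟫ * e1 (Pi.single 1 1) -
        ⟪a, iv (Pi.single 1 1)⟫ * e1 (Pi.single 0 1)
  have h6 := finrank_orth (Submodule.span ℝ (Set.range ![a, b]))
  rw [finrank_span_eq_card h5, Fintype.card_fin] at h6
  have hC : 0 < 2 * ‖a‖ * ‖b‖ :=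
    mul_pos (mul_pos two_pos (norm_pos_iff.2 (h5.ne_zero 0))) (norm_pos_iff.2 (h5.ne_zero 1))
  refine (iInf₂_le (Submodule.span ℝ (Set.range ![a, b]))ᗮ (show Irr 6 2 _ from
    ⟨by omega, fun B hB => ?_⟩)).trans (iSup₂_le fun β hβ => le_of_not_gt fun h7 => ?_)
  · obtain ⟨w, hw⟩ := hB.2
    rw [(Submodule.eq_bot_iff (_ ⊓ B)).2 fun Y hY => ?_, finrank_bot]
    · exact one_pos
    · have := om_le a b hw hY.1 hY.2
      rw [sub_self, norm_zero, mul_zero] at this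
      exact norm_le_zero_iff.1 (le_of_mul_le_mul_left (by simpa using this)
        (abs_pos.2 (h4 _ _ (pl_ne hw hB.1))))
  have h8 : 7 < β := EReal.coe_lt_coe_iff.1 h7
  let f := hβ.2.natEmbedding
  choose w hw hw' using fun n => exists_vol (f n).2.1
  have h9 : ∀ n, 0 < vol (w n) := fun n =>
    one_pos.trans_le ((one_le_height (f n).2.1).trans (height_le (hw n)))
  have h10 : Tendsto (fun n => Real.log (32 * vol (w n))) (hyperfilter ℕ) atTop := by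
    refine (Real.tendsto_log_atTop.comp (Tendsto.const_mul_atTop (by norm_num)
      (tendsto_atTop.2 fun K => eventually_cofinite.2 ?_))).mono_left hyperfilter_le_cofinite
    exact ((fin_vol K).preimage (Subtype.val_injective.comp f.injective).injOn).subset
      fun n hn => ⟨(f n).2.1.1, w n, hw n, (not_le.1 hn).le⟩
  refine one_form _ h10 7 γ ((β + 5) / 2) (fun n => ww (pl (w n 0) (w n 1))) h1 h2
    (by push_cast; linarith) ?_
  filter_upwards [Pool.Agent.P.MP_fc15d7_nt.ev_le_exp h10 (2 * ‖a‖ * ‖b‖ * 64 ^ β / |κ|)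
    (half_pos (sub_pos.2 h8))] with n e1
  have e2 : Real.exp (Real.log (32 * vol (w n))) = 32 * vol (w n) :=
    Real.exp_log (mul_pos (by norm_num) (h9 n))
  generalize Real.log (32 * vol (w n)) = N at e1 e2
  refine ⟨fun e => pl_ne (hw n) (f n).2.1.1 (ww_zero _ _ e),
    fun k => (ww_le (pl_le _) k).trans_eq (by rw [e2]; ring), ?_⟩
  have e3 := (le_psi (s := |om a b (w n 0) (w n 1)| / (2 * ‖a‖ * ‖b‖ * vol (w n)))
    (ne_bot_of (by omega)) (ne_bot_of (by rw [(f n).2.1.1]; norm_num)) fun X hX Y hY => by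
      rw [div_mul_eq_mul_div, div_le_iff₀' (mul_pos hC (h9 n))]
      exact om_le a b (hw n) hX hY).trans ((f n).2.2.trans (Real.rpow_le_rpow_of_nonpos
        (x := Real.exp N / 64) (by positivity) (by linarith [hw' n]) (by linarith)))
  rw [div_le_iff₀ (mul_pos hC (h9 n)), h3, abs_mul, Real.div_rpow (by positivity) (by norm_num),
    Real.rpow_neg (x := 64) (by norm_num), div_inv_eq_mul, ← Real.exp_mul,
    ← le_div_iff₀' (abs_pos.2 hκ)] at e3
  calc _ ≤ _ := e3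
    _ = 2 * ‖a‖ * ‖b‖ * 64 ^ β / |κ| * vol (w n) * Real.exp (N * -β) := by ring
    _ ≤ Real.exp ((β - 7) / 2 * N) * Real.exp N * Real.exp (N * -β) := by
      exact mul_le_mul_of_nonneg_right (mul_le_mul e1 (by linarith [h9 n]) (h9 n).le
        (Real.exp_pos _).le) (Real.exp_pos _).le
    _ = _ := by
      rw [← Real.exp_add, ← Real.exp_add]
      congr 1
      ring

end Pool.Agent.P.MP_fea266_nt
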